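import Pool.Agent.H7.KR.Stm

set_option autoImplicit false

/-! # KR-DMG (helper8) -/

namespace Pool.Agent.H7.KR

open Metric Set Filter Topology MeasureTheory

theorem dmg : S_DMG := by
  intro y p N hy hp hpN h
  set a : ℝ := 2 * ((p : ℝ) / N) with ha
  have hp1 : (1 : ℝ) ≤ p := by exact_mod_cast hp
  have hN1 : (p : ℝ) ≤ N := by exact_mod_cast hpN
  have hN0 : (0 : ℝ) < N := by linarith
  have ha0 : 0 ≤ a := by positivity
  have ha2 : a ≤ 2 := by
    have : (p : ℝ) / N ≤ 1 := (div_le_one hN0).2 hN1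
    rw [ha]
    linarith
  refine ⟨16 * (p * (2 : ℝ) ^ (2 * a)), by positivity, fun M hM => ?_⟩
  have hM0 : (1 : ℝ) ≤ (M : ℝ) := by exact_mod_cast hM
  have hM1 : (0 : ℝ) < (M : ℝ) := by linarith
  set r : ℝ := 1 - 1 / (2 * (M : ℝ)) with hr
  have h1 : 1 / (2 * (M : ℝ)) ≤ 1 / 2 := by
    rw [div_le_div_iff₀ (by positivity) (by norm_num)]
    linarith
  have h0 : 0 < 1 / (2 * (M : ℝ)) := by positivity
  have hr0 : 1 / 2 ≤ r := by
    rw [hr]
    linarith
  have hr1 : r < 1 := by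
    rw [hr]
    linarith
  have hrpow : (1 : ℝ) / 4 ≤ r ^ (2 * M) := by
    have h2 : 1 + (M : ℝ) * (-(1 / (2 * (M : ℝ)))) ≤ (1 + -(1 / (2 * (M : ℝ)))) ^ M :=
      one_add_mul_le_pow (by linarith) M
    have h3 : (M : ℝ) * (-(1 / (2 * (M : ℝ)))) = -(1 / 2) := by
      field_simp
    rw [h3, ← sub_eq_add_neg 1 (1 / (2 * (M : ℝ))), ← hr] at h2
    rw [mul_comm, pow_mul]
    nlinarith
  have hra : (1 : ℝ) / 4 ≤ r ^ a := by
    have h2 : r ^ (2 : ℝ) ≤ r ^ a := Real.rpow_le_rpow_of_exponent_ge (by linarith) hr1.le ha2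
    have h3 : r ^ (2 : ℝ) = r ^ 2 := by norm_cast
    rw [h3] at h2
    nlinarith
  have h4 := h r ⟨by linarith, hr1⟩ M
  have h5 : ((1 - r) ^ (-2 : ℝ)) ^ a = (2 : ℝ) ^ (2 * a) * (M : ℝ) ^ (2 * a) := by
    have h6 : 1 - r = (2 * (M : ℝ))⁻¹ := by
      rw [hr, ← one_div]
      ring
    rw [h6, ← Real.rpow_mul (by positivity), Real.inv_rpow (by positivity),
      ← Real.rpow_neg (by positivity), ← Real.mul_rpow (by norm_num) hM1.le]
    congr 1
    ring
  rw [h5] at h4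
  have h44 : 4 * ((p : ℝ) / N) = 2 * a := by
    rw [ha]
    ring
  rw [h44]
  calc ∑ m ∈ Finset.range M, ((m : ℝ) + 1) * y m
      ≤ ∑ m ∈ Finset.range M, 16 * (((N : ℝ) * m + p) * y m * r ^ (2 * m) * r ^ a) := by
        refine Finset.sum_le_sum fun m hm => ?_
        rw [Finset.mem_range] at hm
        have h7 : r ^ (2 * M) ≤ r ^ (2 * m) :=
          pow_le_pow_of_le_one (by linarith) hr1.le (by omega)
        have h8 : (1 : ℝ) / 4 ≤ r ^ (2 * m) := hrpow.trans h7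
        have hm0 : (0 : ℝ) ≤ m := Nat.cast_nonneg m
        have h9 : ((m : ℝ) + 1) * y m ≤ ((N : ℝ) * m + p) * y m := by
          refine mul_le_mul_of_nonneg_right ?_ (hy m)
          have : (m : ℝ) ≤ N * m := by
            have h11 : (1 : ℝ) ≤ N := by linarith
            nlinarith
          linarith
        have h10 : 0 ≤ ((N : ℝ) * m + p) * y m := mul_nonneg (by positivity) (hy m)
        have h12 : (1 : ℝ) / 16 ≤ r ^ (2 * m) * r ^ a := by nlinarith
        have h13 : ((N : ℝ) * m + p) * y m * (1 / 16) ≤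
            ((N : ℝ) * m + p) * y m * (r ^ (2 * m) * r ^ a) := mul_le_mul_of_nonneg_left h12 h10
        rw [← mul_assoc] at h13
        linarith
    _ = 16 * ∑ m ∈ Finset.range M, ((N : ℝ) * m + p) * y m * r ^ (2 * m) * r ^ a := by
        rw [Finset.mul_sum]
    _ ≤ 16 * (p * ((2 : ℝ) ^ (2 * a) * (M : ℝ) ^ (2 * a))) := by linarith
    _ = _ := by ring

end Pool.Agent.H7.KR
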