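import Pool.Agent.H7.KR.Stm

set_option autoImplicit false

namespace Pool.Agent.H7.KR

open Metric Set Filter Topology MeasureTheory
open scoped ENNReal

namespace FNG

/-- partial sums with a decreasing power -/
theorem psum (b : ℕ → ℝ) (hb : ∀ m, 0 ≤ b m) (C γ β e : ℝ) (hC : 0 ≤ C) (hγ : 0 ≤ γ)
    (hβ : 0 ≤ β) (he : 0 < e) (he2 : γ - β ≤ e)
    (h : ∀ M : ℕ, 1 ≤ M → ∑ m ∈ Finset.range M, b m ≤ C * (M : ℝ) ^ γ) :
    ∃ K : ℝ, 0 ≤ K ∧ ∀ M : ℕ, 1 ≤ M →
      ∑ m ∈ Finset.range M, ((m : ℝ) + 1) ^ (-β) * b m ≤ K * (M : ℝ) ^ e := by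
  have h2e : 1 < (2 : ℝ) ^ e := Real.one_lt_rpow (by norm_num) he
  obtain ⟨K₀, hK₀⟩ : ∃ K₀ : ℝ, K₀ = C + C * 2 ^ γ / (2 ^ e - 1) := ⟨_, rfl⟩
  have hd : 0 < (2 : ℝ) ^ e - 1 := by linarith
  have h2γ : 0 < (2 : ℝ) ^ γ := by positivity
  have hCK : C ≤ K₀ := by
    rw [hK₀]
    have : 0 ≤ C * 2 ^ γ / (2 ^ e - 1) := by positivity
    linarith
  have hK0 : 0 ≤ K₀ := hC.trans hCK
  have hKe : C * 2 ^ γ ≤ K₀ * (2 ^ e - 1) := by
    rw [hK₀, add_mul, div_mul_cancel₀ _ hd.ne']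
    have : 0 ≤ C * (2 ^ e - 1) := by positivity
    linarith
  have key : ∀ J : ℕ, ∑ m ∈ Finset.range (2 ^ J), ((m : ℝ) + 1) ^ (-β) * b m ≤
      K₀ * ((2 : ℝ) ^ J) ^ e := by
    intro J
    induction J with
    | zero =>
      have h1 := h 1 le_rfl
      simp only [Finset.range_one, Finset.sum_singleton, Nat.cast_one, Real.one_rpow,
        mul_one] at h1
      simp only [pow_zero, Finset.range_one, Finset.sum_singleton, Nat.cast_zero, zero_add,
        Real.one_rpow, one_mul, mul_one]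
      linarith
    | succ J ih =>
      have hP : (0 : ℝ) < 2 ^ J := by positivity
      have hle : 2 ^ J ≤ 2 ^ (J + 1) := Nat.pow_le_pow_right (by norm_num) (Nat.le_succ J)
      rw [← Finset.sum_range_add_sum_Ico _ hle]
      have h1 : ∑ m ∈ Finset.Ico ((2 : ℕ) ^ J) ((2 : ℕ) ^ (J + 1)), ((m : ℝ) + 1) ^ (-β) * b m ≤
          ((2 : ℝ) ^ J) ^ (-β) * (C * ((2 : ℝ) ^ (J + 1)) ^ γ) := by
        calc ∑ m ∈ Finset.Ico ((2 : ℕ) ^ J) ((2 : ℕ) ^ (J + 1)), ((m : ℝ) + 1) ^ (-β) * b m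
            ≤ ∑ m ∈ Finset.Ico ((2 : ℕ) ^ J) ((2 : ℕ) ^ (J + 1)), ((2 : ℝ) ^ J) ^ (-β) * b m := by
              refine Finset.sum_le_sum fun m hm => mul_le_mul_of_nonneg_right ?_ (hb m)
              refine Real.rpow_le_rpow_of_nonpos hP ?_ (by linarith)
              have : (2 : ℝ) ^ J ≤ m := by exact_mod_cast (Finset.mem_Ico.1 hm).1
              linarith
          _ = ((2 : ℝ) ^ J) ^ (-β) * ∑ m ∈ Finset.Ico ((2 : ℕ) ^ J) ((2 : ℕ) ^ (J + 1)), b m := by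
              rw [Finset.mul_sum]
          _ ≤ _ := by
              refine mul_le_mul_of_nonneg_left ?_ (by positivity)
              have h2 := h (2 ^ (J + 1)) Nat.one_le_two_pow
              push_cast at h2
              refine le_trans ?_ h2
              refine Finset.sum_le_sum_of_subset_of_nonneg ?_ fun m _ _ => hb m
              intro m hm
              exact Finset.mem_range.2 (Finset.mem_Ico.1 hm).2
      have h3 : ((2 : ℝ) ^ J) ^ (-β) * (C * ((2 : ℝ) ^ (J + 1)) ^ γ) =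
          C * 2 ^ γ * ((2 : ℝ) ^ J) ^ (γ - β) := by
        rw [pow_succ, Real.mul_rpow hP.le (by norm_num), sub_eq_add_neg, Real.rpow_add hP]
        ring
      have h4 : ((2 : ℝ) ^ J) ^ (γ - β) ≤ ((2 : ℝ) ^ J) ^ e :=
        Real.rpow_le_rpow_of_exponent_le (one_le_pow₀ (by norm_num)) he2
      have h5 : ((2 : ℝ) ^ (J + 1)) ^ e = 2 ^ e * ((2 : ℝ) ^ J) ^ e := by
        rw [pow_succ, Real.mul_rpow hP.le (by norm_num), mul_comm]
      rw [h5]
      have h6 : C * 2 ^ γ * ((2 : ℝ) ^ J) ^ (γ - β) ≤ K₀ * (2 ^ e - 1) * ((2 : ℝ) ^ J) ^ e :=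
        mul_le_mul hKe h4 (by positivity) (by positivity)
      rw [h3] at h1
      nlinarith
  refine ⟨K₀ * 2 ^ e, by positivity, fun M hM => ?_⟩
  have hlt : M ≤ 2 ^ (Nat.log 2 M + 1) := (Nat.lt_pow_succ_log_self (by norm_num) M).le
  have hle : 2 ^ (Nat.log 2 M) ≤ M := Nat.pow_log_le_self 2 (by omega)
  have hle' : ((2 : ℝ) ^ (Nat.log 2 M + 1)) ≤ 2 * M := by
    have : ((2 : ℝ) ^ (Nat.log 2 M)) ≤ M := by exact_mod_cast hle
    rw [pow_succ]
    linarith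
  calc ∑ m ∈ Finset.range M, ((m : ℝ) + 1) ^ (-β) * b m
      ≤ ∑ m ∈ Finset.range (2 ^ (Nat.log 2 M + 1)), ((m : ℝ) + 1) ^ (-β) * b m := by
        refine Finset.sum_le_sum_of_subset_of_nonneg ?_ fun m _ _ =>
          mul_nonneg (by positivity) (hb m)
        intro m hm
        exact Finset.mem_range.2 ((Finset.mem_range.1 hm).trans_le hlt)
    _ ≤ K₀ * ((2 : ℝ) ^ (Nat.log 2 M + 1)) ^ e := key _
    _ ≤ K₀ * (2 * M) ^ e := by
        refine mul_le_mul_of_nonneg_left ?_ hK0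
        exact Real.rpow_le_rpow (by positivity) hle' he.le
    _ = K₀ * 2 ^ e * (M : ℝ) ^ e := by
        rw [Real.mul_rpow (by norm_num) (Nat.cast_nonneg M)]
        ring

theorem summ (e : ℝ) : Summable fun j : ℕ => (1 / 2 : ℝ) ^ j * ((j : ℝ) + 1) ^ e := by
  have h1 := summable_pow_mul_geometric_of_norm_lt_one (R := ℝ) ⌈e⌉₊ (r := 1 / 2)
    (by rw [Real.norm_eq_abs, abs_of_pos (by norm_num)]; norm_num)
  have h2 := ((summable_nat_add_iff 1).2 h1).mul_left 2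
  refine Summable.of_nonneg_of_le (fun j => by positivity) (fun j => ?_) h2
  have h3 : ((j : ℝ) + 1) ^ e ≤ ((j : ℝ) + 1) ^ ⌈e⌉₊ := by
    rw [← Real.rpow_natCast]
    exact Real.rpow_le_rpow_of_exponent_le (by linarith [Nat.cast_nonneg (α := ℝ) j])
      (Nat.le_ceil e)
  have h4 := mul_le_mul_of_nonneg_left h3 (show (0 : ℝ) ≤ (1 / 2) ^ j by positivity)
  refine h4.trans (le_of_eq ?_)
  push_cast
  rw [pow_succ (1 / 2 : ℝ) j]
  ring

theorem geo (f : ℕ → ℝ) (hf : ∀ m, 0 ≤ f m) (K e : ℝ) (hK : 0 ≤ K)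
    (h : ∀ n : ℕ, 1 ≤ n → ∑ m ∈ Finset.range n, f m ≤ K * (n : ℝ) ^ e) :
    ∃ K' : ℝ, 0 ≤ K' ∧ ∀ M : ℕ, 2 ≤ M →
      ∑' m : ℕ, ENNReal.ofReal ((1 - 1 / (M : ℝ)) ^ m * f m) ≤
        ENNReal.ofReal (K' * (M : ℝ) ^ e) := by
  have hs := summ e
  refine ⟨K * ∑' j : ℕ, (1 / 2 : ℝ) ^ j * ((j : ℝ) + 1) ^ e, by positivity, fun M hM => ?_⟩
  have hM' : (2 : ℝ) ≤ M := by exact_mod_cast hM
  have hρ0 : 0 ≤ 1 - 1 / (M : ℝ) := by
    rw [sub_nonneg, div_le_one (by linarith)]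
    linarith
  have hρ1 : 1 - 1 / (M : ℝ) ≤ 1 := by
    have : 0 ≤ 1 / (M : ℝ) := by positivity
    linarith
  have hρM : (1 - 1 / (M : ℝ)) ^ M ≤ 1 / 2 := by
    calc (1 - 1 / (M : ℝ)) ^ M ≤ Real.exp (-(1 / (M : ℝ))) ^ M :=
          pow_le_pow_left₀ hρ0 (Real.one_sub_le_exp_neg _) M
      _ = Real.exp (-1) := by
          rw [← Real.exp_nat_mul]
          congr 1
          field_simp
      _ ≤ 1 / 2 := by
          rw [Real.exp_neg, ← one_div]
          refine one_div_le_one_div_of_le (by norm_num) ?_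
          have := Real.add_one_le_exp (1 : ℝ)
          linarith
  have key : ∀ J : ℕ, ∑ m ∈ Finset.range (J * M), (1 - 1 / (M : ℝ)) ^ m * f m ≤
      K * (M : ℝ) ^ e * ∑ j ∈ Finset.range J, (1 / 2 : ℝ) ^ j * ((j : ℝ) + 1) ^ e := by
    intro J
    induction J with
    | zero => simp
    | succ J ih =>
      have hle : J * M ≤ (J + 1) * M := Nat.mul_le_mul_right M (Nat.le_succ J)
      rw [← Finset.sum_range_add_sum_Ico _ hle, Finset.sum_range_succ, mul_add]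
      refine add_le_add ih ?_
      calc ∑ m ∈ Finset.Ico (J * M) ((J + 1) * M), (1 - 1 / (M : ℝ)) ^ m * f m
          ≤ ∑ m ∈ Finset.Ico (J * M) ((J + 1) * M), (1 / 2 : ℝ) ^ J * f m := by
            refine Finset.sum_le_sum fun m hm => mul_le_mul_of_nonneg_right ?_ (hf m)
            calc (1 - 1 / (M : ℝ)) ^ m ≤ (1 - 1 / (M : ℝ)) ^ (J * M) :=
                  pow_le_pow_of_le_one hρ0 hρ1 (Finset.mem_Ico.1 hm).1
              _ = ((1 - 1 / (M : ℝ)) ^ M) ^ J := by rw [mul_comm, pow_mul]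
              _ ≤ (1 / 2 : ℝ) ^ J := pow_le_pow_left₀ (by positivity) hρM J
        _ = (1 / 2 : ℝ) ^ J * ∑ m ∈ Finset.Ico (J * M) ((J + 1) * M), f m := by
            rw [Finset.mul_sum]
        _ ≤ (1 / 2 : ℝ) ^ J * (K * (((J + 1) * M : ℕ) : ℝ) ^ e) := by
            refine mul_le_mul_of_nonneg_left ?_ (by positivity)
            refine le_trans ?_ (h ((J + 1) * M) (Nat.mul_pos (Nat.succ_pos J) (by omega)))
            refine Finset.sum_le_sum_of_subset_of_nonneg ?_ fun m _ _ => hf m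
            intro m hm
            exact Finset.mem_range.2 (Finset.mem_Ico.1 hm).2
        _ = K * (M : ℝ) ^ e * ((1 / 2 : ℝ) ^ J * ((J : ℝ) + 1) ^ e) := by
            push_cast
            rw [Real.mul_rpow (by positivity) (by positivity)]
            ring
  refine ENNReal.tsum_le_of_sum_range_le fun n => ?_
  rw [← ENNReal.ofReal_sum_of_nonneg fun m _ => mul_nonneg (pow_nonneg hρ0 m) (hf m)]
  refine ENNReal.ofReal_le_ofReal ?_
  calc ∑ m ∈ Finset.range n, (1 - 1 / (M : ℝ)) ^ m * f m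
      ≤ ∑ m ∈ Finset.range (n * M), (1 - 1 / (M : ℝ)) ^ m * f m := by
        refine Finset.sum_le_sum_of_subset_of_nonneg ?_ fun m _ _ =>
          mul_nonneg (pow_nonneg hρ0 m) (hf m)
        intro m hm
        exact Finset.mem_range.2 ((Finset.mem_range.1 hm).trans_le
          (Nat.le_mul_of_pos_right n (by omega)))
    _ ≤ K * (M : ℝ) ^ e * ∑ j ∈ Finset.range n, (1 / 2 : ℝ) ^ j * ((j : ℝ) + 1) ^ e := key n
    _ ≤ K * (M : ℝ) ^ e * ∑' j : ℕ, (1 / 2 : ℝ) ^ j * ((j : ℝ) + 1) ^ e :=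
        mul_le_mul_of_nonneg_left (hs.sum_le_tsum _ fun j _ => by positivity) (by positivity)
    _ = _ := by ring

theorem quarter (M m : ℕ) (hM : 2 ≤ M) (hm : m < M) : 1 / 4 ≤ (1 - 1 / (M : ℝ)) ^ m := by
  have hM' : (2 : ℝ) ≤ M := by exact_mod_cast hM
  have hρ0 : 0 ≤ 1 - 1 / (M : ℝ) := by
    rw [sub_nonneg, div_le_one (by linarith)]
    linarith
  have hρ1 : 1 - 1 / (M : ℝ) ≤ 1 := by
    have : 0 ≤ 1 / (M : ℝ) := by positivity
    linarith
  have h1 : (1 - 1 / (M : ℝ)) ^ (M - 1) ≤ (1 - 1 / (M : ℝ)) ^ m :=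
    pow_le_pow_of_le_one hρ0 hρ1 (by omega)
  refine le_trans ?_ h1
  -- `(1 - 1/M)^(M-1) = (1 + 1/(M-1))^(-(M-1)) ≥ exp (-1) ≥ 1/4`
  obtain ⟨n, rfl⟩ := Nat.exists_eq_add_of_le' (show 1 ≤ M by omega)
  rw [Nat.add_sub_cancel]
  have hn : (0 : ℝ) < n := by exact_mod_cast (show 0 < n by omega)
  have h2 : 1 - 1 / ((n + 1 : ℕ) : ℝ) = (1 + 1 / (n : ℝ))⁻¹ := by
    push_cast
    field_simp
    ring
  rw [h2, inv_pow, ← one_div]
  refine one_div_le_one_div_of_le (by positivity) ?_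
  calc (1 + 1 / (n : ℝ)) ^ n ≤ Real.exp (1 / (n : ℝ)) ^ n := by
        refine pow_le_pow_left₀ (by positivity) ?_ n
        linarith [Real.add_one_le_exp (1 / (n : ℝ))]
    _ = Real.exp 1 := by
        rw [← Real.exp_nat_mul]
        congr 1
        field_simp
    _ ≤ 4 := by linarith [Real.exp_one_lt_d9]

end FNG

open FNG in
theorem fng : S_FNG := by
  intro s σ ε C G E y hs hs4 hσ hε hC hE hy hG hY hρ
  obtain ⟨η, hηd⟩ : ∃ η : ℝ, η = min ε 1 := ⟨_, rfl⟩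
  have hη : 0 < η := by rw [hηd]; exact lt_min hε one_pos
  have hη1 : η ≤ 1 := by rw [hηd]; exact min_le_right _ _
  have hηε : η ≤ ε := by rw [hηd]; exact min_le_left _ _
  have hb : ∀ m : ℕ, 0 ≤ ((m : ℝ) + 1) * y m := fun m => mul_nonneg (by positivity) (hy m)
  obtain ⟨e, he⟩ : ∃ e : ℝ, e = max σ (6 * s - 1) + η := ⟨_, rfl⟩
  obtain ⟨e₁, he₁⟩ : ∃ e₁ : ℝ, e₁ = max 0 (6 * s - 1 - σ) + η := ⟨_, rfl⟩
  have m1 := le_max_left σ (6 * s - 1)
  have m2 := le_max_right σ (6 * s - 1)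
  have m3 := le_max_left 0 (6 * s - 1 - σ)
  have m4 := le_max_right 0 (6 * s - 1 - σ)
  have hee : σ + e₁ = e := by
    rw [he, he₁, ← add_assoc, add_max]
    congr 2 <;> ring
  have he₁0 : 0 < e₁ := by rw [he₁]; linarith
  obtain ⟨K₂, hK₂, h2⟩ := psum (fun m => ((m : ℝ) + 1) * y m) hb C (4 * s) (1 - 2 * s) e hC
    (by positivity) (by linarith) (by rw [he]; linarith) (by rw [he]; linarith) hY
  obtain ⟨K₁, hK₁, h1⟩ := psum (fun m => ((m : ℝ) + 1) * y m) hb C (4 * s)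
    (1 + σ - 2 * s - η / 2) e₁ hC (by positivity) (by linarith) he₁0
    (by rw [he₁]; linarith) hY
  obtain ⟨f, hf⟩ : ∃ f : ℕ → ℝ, f = fun m : ℕ =>
    ((m : ℝ) + 1) ^ (2 * s - σ) * (1 + Real.log ((m : ℝ) + 1)) * y m := ⟨_, rfl⟩
  have hf0 : ∀ m, 0 ≤ f m := by
    intro m
    rw [hf]
    have : 0 ≤ Real.log ((m : ℝ) + 1) := Real.log_nonneg (by linarith [Nat.cast_nonneg (α := ℝ) m])
    have := hy m
    positivity
  have hfs : ∀ n : ℕ, 1 ≤ n → ∑ m ∈ Finset.range n, f m ≤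
      ((1 + 2 / η) * K₁) * (n : ℝ) ^ e₁ := by
    intro n hn
    have h3 := mul_le_mul_of_nonneg_left (h1 n hn) (show 0 ≤ 1 + 2 / η by positivity)
    rw [Finset.mul_sum, ← mul_assoc] at h3
    refine le_trans (Finset.sum_le_sum fun m _ => ?_) h3
    have hm : (0 : ℝ) < (m : ℝ) + 1 := by positivity
    have hm1 : (1 : ℝ) ≤ (m : ℝ) + 1 := by linarith [Nat.cast_nonneg (α := ℝ) m]
    have hlog : 1 + Real.log ((m : ℝ) + 1) ≤ (1 + 2 / η) * ((m : ℝ) + 1) ^ (η / 2) := by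
      have a1 := Real.log_le_rpow_div hm.le (half_pos hη)
      have a2 : 1 ≤ ((m : ℝ) + 1) ^ (η / 2) := Real.one_le_rpow hm1 (by positivity)
      have a3 : ((m : ℝ) + 1) ^ (η / 2) / (η / 2) = 2 / η * ((m : ℝ) + 1) ^ (η / 2) := by
        field_simp
      rw [a3] at a1
      linarith
    have e1 : ((m : ℝ) + 1) ^ (-(1 + σ - 2 * s - η / 2)) * (((m : ℝ) + 1) * y m) =
        ((m : ℝ) + 1) ^ (2 * s - σ) * ((m : ℝ) + 1) ^ (η / 2) * y m := by
      rw [← Real.rpow_add hm, ← mul_assoc]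
      congr 1
      rw [← Real.rpow_add_one hm.ne']
      congr 1
      ring
    rw [e1, hf]
    show ((m : ℝ) + 1) ^ (2 * s - σ) * (1 + Real.log ((m : ℝ) + 1)) * y m ≤
      (1 + 2 / η) * (((m : ℝ) + 1) ^ (2 * s - σ) * ((m : ℝ) + 1) ^ (η / 2) * y m)
    have a4 := mul_le_mul_of_nonneg_left hlog
      (show 0 ≤ ((m : ℝ) + 1) ^ (2 * s - σ) * y m from mul_nonneg (by positivity) (hy m))
    nlinarith
  obtain ⟨K₃, hK₃, h3⟩ := geo f hf0 ((1 + 2 / η) * K₁) e₁ (by positivity) hfs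
  refine ⟨|G 0| + C * (4 * (C + C * K₃)) + C * K₂, by positivity, fun M hM => ?_⟩
  have hM1 : (1 : ℝ) ≤ M := by exact_mod_cast hM
  have hMp : (0 : ℝ) < M := by linarith
  have hMe : (M : ℝ) ^ e ≤ (M : ℝ) ^ (max σ (6 * s - 1) + ε) :=
    Real.rpow_le_rpow_of_exponent_le hM1 (by rw [he]; linarith)
  have hMe1 : 1 ≤ (M : ℝ) ^ e := Real.one_le_rpow hM1 (by rw [he]; linarith)
  have hB0 : 0 ≤ C * (4 * (C + C * K₃)) := by positivity
  have hB1 : 0 ≤ C * K₂ := by positivity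
  refine le_trans ?_ (mul_le_mul_of_nonneg_left hMe (by positivity))
  rcases eq_or_lt_of_le hM with h4 | h4
  · rw [← h4, Finset.range_one, Finset.sum_singleton]
    rw [← h4] at hMe1
    have := le_abs_self (G 0)
    have h5 : |G 0| ≤ |G 0| + C * (4 * (C + C * K₃)) + C * K₂ := by linarith
    have h6 := mul_le_mul_of_nonneg_left hMe1
      (show 0 ≤ |G 0| + C * (4 * (C + C * K₃)) + C * K₂ by positivity)
    linarith
  · have hM2 : 2 ≤ M := h4
    have hρm : (1 - 1 / (M : ℝ)) ∈ Ioo (0 : ℝ) 1 := by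
      have h5 : (2 : ℝ) ≤ M := by exact_mod_cast hM2
      constructor
      · rw [sub_pos, div_lt_one (by linarith)]
        linarith
      · have : 0 < 1 / (M : ℝ) := by positivity
        linarith
    have h5 := hρ _ hρm
    have h6 : ∑' m : ℕ, ENNReal.ofReal ((1 - 1 / (M : ℝ)) ^ m *
        (((m : ℝ) + 1) ^ (2 * s - σ) * (1 + Real.log ((m : ℝ) + 1)) * y m)) ≤
        ENNReal.ofReal (K₃ * (M : ℝ) ^ e₁) := by
      have := h3 M hM2
      rw [hf] at this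
      exact this
    have h7 : ∑' m : ℕ, ENNReal.ofReal ((1 - 1 / (M : ℝ)) ^ m * E m) ≤
        ENNReal.ofReal (C + C * (K₃ * (M : ℝ) ^ e₁)) := by
      rw [ENNReal.ofReal_add hC (by positivity), ENNReal.ofReal_mul hC]
      exact h5.trans (by gcongr)
    have h8 : ∑ m ∈ Finset.range M, (1 - 1 / (M : ℝ)) ^ m * E m ≤
        C + C * (K₃ * (M : ℝ) ^ e₁) := by
      have h9 := (ENNReal.sum_le_tsum (Finset.range M)).trans h7
      rw [← ENNReal.ofReal_sum_of_nonneg fun m _ => mul_nonneg (pow_nonneg hρm.1.le m) (hE m),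
        ENNReal.ofReal_le_ofReal_iff (by positivity)] at h9
      exact h9
    have h9 : ∑ m ∈ Finset.range M, ((m : ℝ) + 1) ^ σ * E m ≤
        4 * (C + C * K₃) * (M : ℝ) ^ e := by
      calc ∑ m ∈ Finset.range M, ((m : ℝ) + 1) ^ σ * E m
          ≤ ∑ m ∈ Finset.range M, (M : ℝ) ^ σ * (4 * ((1 - 1 / (M : ℝ)) ^ m * E m)) := by
            refine Finset.sum_le_sum fun m hm => ?_
            have hm' := Finset.mem_range.1 hm
            have a1 : ((m : ℝ) + 1) ^ σ ≤ (M : ℝ) ^ σ := by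
              refine Real.rpow_le_rpow (by positivity) ?_ hσ.le
              exact_mod_cast hm'
            have a2 := quarter M m hM2 hm'
            have a3 : E m ≤ 4 * ((1 - 1 / (M : ℝ)) ^ m * E m) := by
              have := mul_le_mul_of_nonneg_right a2 (hE m)
              linarith
            exact mul_le_mul a1 a3 (hE m) (by positivity)
        _ = (M : ℝ) ^ σ * (4 * ∑ m ∈ Finset.range M, (1 - 1 / (M : ℝ)) ^ m * E m) := by
            rw [Finset.mul_sum, Finset.mul_sum]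
        _ ≤ (M : ℝ) ^ σ * (4 * (C + C * (K₃ * (M : ℝ) ^ e₁))) := by gcongr
        _ ≤ (M : ℝ) ^ σ * (4 * ((C + C * K₃) * (M : ℝ) ^ e₁)) := by
            have a1 : 1 ≤ (M : ℝ) ^ e₁ := Real.one_le_rpow hM1 he₁0.le
            have a2 : C ≤ C * (M : ℝ) ^ e₁ := le_mul_of_one_le_right hC a1
            gcongr
            linarith
        _ = 4 * (C + C * K₃) * (M : ℝ) ^ e := by
            rw [← hee, Real.rpow_add hMp]
            ring
    have h10 : ∑ m ∈ Finset.range M, ((m : ℝ) + 1) ^ (2 * s) * y m ≤ K₂ * (M : ℝ) ^ e := by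
      refine le_trans (le_of_eq (Finset.sum_congr rfl fun m _ => ?_)) (h2 M hM)
      have hm : (0 : ℝ) < (m : ℝ) + 1 := by positivity
      rw [← mul_assoc]
      congr 1
      rw [← Real.rpow_add_one hm.ne']
      congr 1
      ring
    have h11 : ∑ m ∈ Finset.range M, G m ≤ |G 0| + C * (∑ m ∈ Finset.range M,
        ((m : ℝ) + 1) ^ σ * E m + ∑ m ∈ Finset.range M, ((m : ℝ) + 1) ^ (2 * s) * y m) := by
      have a1 : ∀ m : ℕ, G m ≤ (if m = 0 then |G 0| else 0) +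
          C * (((m : ℝ) + 1) ^ σ * E m + ((m : ℝ) + 1) ^ (2 * s) * y m) := by
        intro m
        rcases Nat.eq_zero_or_pos m with h0 | h0
        · subst h0
          rw [if_pos rfl]
          have a2 : 0 ≤ C * ((((0 : ℕ) : ℝ) + 1) ^ σ * E 0 +
              (((0 : ℕ) : ℝ) + 1) ^ (2 * s) * y 0) :=
            mul_nonneg hC (add_nonneg (mul_nonneg (by positivity) (hE 0))
              (mul_nonneg (by positivity) (hy 0)))
          linarith [le_abs_self (G 0)]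
        · rw [if_neg h0.ne', zero_add]
          exact hG m h0
      refine (Finset.sum_le_sum fun m _ => a1 m).trans (le_of_eq ?_)
      rw [Finset.sum_add_distrib, ← Finset.mul_sum, Finset.sum_add_distrib,
        Finset.sum_ite_eq' (Finset.range M) 0 (fun _ => |G 0|), if_pos (Finset.mem_range.2 hM)]
    have h12 : |G 0| ≤ |G 0| * (M : ℝ) ^ e := le_mul_of_one_le_right (abs_nonneg _) hMe1
    have h13 := mul_le_mul_of_nonneg_left (add_le_add h9 h10) hC
    calc ∑ m ∈ Finset.range M, G m ≤ _ := h11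
      _ ≤ |G 0| * (M : ℝ) ^ e + C * (4 * (C + C * K₃) * (M : ℝ) ^ e + K₂ * (M : ℝ) ^ e) := by
          linarith
      _ = _ := by ring

end Pool.Agent.H7.KR
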