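import Pool.Agent.H7.KR.Stm
import Pool.Agent.H7.SZ.FRC

set_option autoImplicit false

/-! # KR-FRG: the area of the image of `G ^ p` -/

namespace Pool.Agent.H7.KR

open Metric Set Filter Topology MeasureTheory
open scoped ENNReal
open Pool.Agent.H7.SZ (Sc)

namespace FRG

theorem ball_pow (p : ℕ) (hp : 1 ≤ p) {L : ℝ} (hL : 0 ≤ L) :
    ∫⁻ z in closedBall (0 : ℂ) L, ENNReal.ofReal ((p : ℝ) ^ 2 * ‖z‖ ^ (2 * p - 2)) =
      ENNReal.ofReal (Real.pi * (p * L ^ (2 * p))) := by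
  have hc : Continuous fun z : ℂ => (p : ℝ) ^ 2 * ‖z‖ ^ (2 * p - 2) := by fun_prop
  rw [← ofReal_integral_eq_lintegral_ofReal
    (hc.continuousOn.integrableOn_compact (isCompact_closedBall 0 L))
    (Eventually.of_forall fun z => by positivity)]
  congr 1
  rw [← integral_indicator measurableSet_closedBall]
  have e1 : (closedBall (0 : ℂ) L).indicator (fun z => (p : ℝ) ^ 2 * ‖z‖ ^ (2 * p - 2)) =
      fun z => (Iic L).indicator (fun r : ℝ => (p : ℝ) ^ 2 * r ^ (2 * p - 2)) ‖z‖ := by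
    funext z
    by_cases h : ‖z‖ ≤ L
    · rw [indicator_of_mem (mem_closedBall_zero_iff.2 h), indicator_of_mem (mem_Iic.2 h)]
    · rw [indicator_of_notMem (fun h' => h (mem_closedBall_zero_iff.1 h')),
        indicator_of_notMem (fun h' => h (mem_Iic.1 h'))]
  rw [e1, integral_fun_norm_addHaar volume
    (fun r : ℝ => (Iic L).indicator (fun r : ℝ => (p : ℝ) ^ 2 * r ^ (2 * p - 2)) r),
    Complex.finrank_real_complex]
  have e2 : (volume : Measure ℂ).real (ball 0 1) = Real.pi := by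
    rw [Measure.real, Complex.volume_ball]
    simp
  have e3 : ∫ y in Ioi (0 : ℝ), y ^ (2 - 1) •
      (Iic L).indicator (fun r : ℝ => (p : ℝ) ^ 2 * r ^ (2 * p - 2)) y =
      (p : ℝ) ^ 2 * (L ^ (2 * p) / (2 * p)) := by
    have e4 : ∀ y : ℝ, y ^ (2 - 1) •
        (Iic L).indicator (fun r : ℝ => (p : ℝ) ^ 2 * r ^ (2 * p - 2)) y =
        (Iic L).indicator (fun r : ℝ => (p : ℝ) ^ 2 * r ^ (2 * p - 1)) y := by
      intro y
      by_cases h : y ∈ Iic L
      · rw [indicator_of_mem h, indicator_of_mem h, smul_eq_mul]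
        have h5 : 2 * p - 1 = (2 * p - 2) + 1 := by omega
        rw [h5, pow_succ]
        ring
      · rw [indicator_of_notMem h, indicator_of_notMem h, smul_zero]
    simp only [e4]
    rw [setIntegral_indicator measurableSet_Iic, Ioi_inter_Iic,
      ← intervalIntegral.integral_of_le hL, intervalIntegral.integral_const_mul, integral_pow]
    have h5 : 2 * p - 1 + 1 = 2 * p := by omega
    have h6 : ((2 * p - 1 : ℕ) : ℝ) + 1 = 2 * p := by
      rw [← Nat.cast_add_one, h5]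
      push_cast
      ring
    rw [h5, h6, zero_pow (by omega), sub_zero]
  rw [e2, e3]
  have hp0 : (p : ℝ) ≠ 0 := by exact_mod_cast (by omega : p ≠ 0)
  simp only [nsmul_eq_mul, smul_eq_mul, Nat.cast_ofNat]
  field_simp

theorem image_area {G : ℂ → ℂ} (hd : DifferentiableOn ℂ G (ball 0 1)) (hi : InjOn G (ball 0 1))
    {ρ L : ℝ} (hρ1 : ρ < 1) (hL0 : 0 ≤ L) (hL : ∀ z, ‖z‖ < ρ → ‖G z‖ ≤ L) (p : ℕ) (hp : 1 ≤ p) :
    ∫⁻ z in ball (0 : ℂ) ρ, ENNReal.ofReal (‖deriv (fun v => G v ^ p) z‖ ^ 2) ≤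
      ENNReal.ofReal (Real.pi * (p * L ^ (2 * p))) := by
  have hsub : ball (0 : ℂ) ρ ⊆ ball 0 1 := ball_subset_ball hρ1.le
  have hder : ∀ z ∈ ball (0 : ℂ) 1, HasDerivAt G (deriv G z) z := fun z hz =>
    (hd.differentiableAt (isOpen_ball.mem_nhds hz)).hasDerivAt
  have e1 := MeasureTheory.lintegral_image_eq_lintegral_abs_det_fderiv_mul (μ := volume)
    (s := ball (0 : ℂ) ρ) measurableSet_ball (f := G)
    (f' := fun z => (ContinuousLinearMap.toSpanSingleton ℂ (deriv G z)).restrictScalars ℝ)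
    (fun z hz => ((hder z (hsub hz)).hasFDerivAt.restrictScalars ℝ).hasFDerivWithinAt)
    (hi.mono hsub) (fun w => ENNReal.ofReal ((p : ℝ) ^ 2 * ‖w‖ ^ (2 * p - 2)))
  have e2 : ∫⁻ z in ball (0 : ℂ) ρ, ENNReal.ofReal (‖deriv (fun v => G v ^ p) z‖ ^ 2) =
      ∫⁻ z in ball (0 : ℂ) ρ, ENNReal.ofReal
        |((ContinuousLinearMap.toSpanSingleton ℂ (deriv G z)).restrictScalars ℝ).det| *
          ENNReal.ofReal ((p : ℝ) ^ 2 * ‖G z‖ ^ (2 * p - 2)) := by
    refine setLIntegral_congr_fun measurableSet_ball fun z hz => ?_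
    rw [Pool.Agent.Helper405.Area.det_mul, abs_of_nonneg (by positivity),
      ← ENNReal.ofReal_mul (by positivity)]
    congr 1
    have h4 : deriv (fun v => G v ^ p) z = (p : ℂ) * G z ^ (p - 1) * deriv G z :=
      HasDerivAt.deriv ((hder z (hsub hz)).pow p)
    rw [h4, norm_mul, norm_mul, norm_pow, Complex.norm_natCast]
    have h5 : 2 * p - 2 = 2 * (p - 1) := by omega
    rw [h5, pow_mul, mul_pow, mul_pow, ← pow_mul, ← pow_mul, mul_comm (p - 1) 2]
    ring
  rw [e2, ← e1]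
  have e3 : G '' ball (0 : ℂ) ρ ⊆ closedBall 0 L := by
    rintro _ ⟨z, hz, rfl⟩
    rw [mem_closedBall_zero_iff]
    exact hL z (mem_ball_zero_iff.1 hz)
  exact (lintegral_mono_set e3).trans (le_of_eq (ball_pow p hp hL0))

theorem area_gen {g : ℂ → ℂ} {c : ℕ → ℂ}
    (hs : ∀ z ∈ ball (0 : ℂ) 1, HasSum (fun n => c n * z ^ n) (g z))
    (hd : DifferentiableOn ℂ g (ball 0 1)) {ρ A : ℝ} (hρ : 0 < ρ)
    (hρ1 : ρ < 1) (hA : 0 ≤ A) (h : ∫⁻ z in ball (0 : ℂ) ρ, ENNReal.ofReal (‖deriv g z‖ ^ 2) ≤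
      ENNReal.ofReal (Real.pi * A)) (N : ℕ) :
    ∑ n ∈ Finset.range N, (n : ℝ) * ‖c n‖ ^ 2 * ρ ^ (2 * n) ≤ A := by
  have hpi := Real.pi_pos
  have h1 := (Pool.Agent.H7.SZ.FRC.polar hd hρ1).trans h
  have h2 : ∫⁻ r in Ioo (0 : ℝ) ρ, ENNReal.ofReal (∑ n ∈ Finset.range N,
      2 * Real.pi * ((n : ℝ) ^ 2 * ‖c n‖ ^ 2) * r ^ (2 * n - 1)) ≤
      ∫⁻ r in Ioo (0 : ℝ) ρ, ∫⁻ θ in Ioo (-Real.pi) Real.pi,
        ENNReal.ofReal (r * ‖deriv g (circleMap 0 r θ)‖ ^ 2) :=
    setLIntegral_mono' measurableSet_Ioo fun r hr =>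
      Pool.Agent.H7.SZ.FRC.inner hs hd hr.1 (hr.2.trans hρ1) N
  have h3 := h2.trans h1
  have hcont : Continuous fun r : ℝ => ∑ n ∈ Finset.range N,
      2 * Real.pi * ((n : ℝ) ^ 2 * ‖c n‖ ^ 2) * r ^ (2 * n - 1) := by fun_prop
  have h4 : ∫⁻ r in Ioo (0 : ℝ) ρ, ENNReal.ofReal (∑ n ∈ Finset.range N,
      2 * Real.pi * ((n : ℝ) ^ 2 * ‖c n‖ ^ 2) * r ^ (2 * n - 1)) =
      ENNReal.ofReal (Real.pi * ∑ n ∈ Finset.range N, (n : ℝ) * ‖c n‖ ^ 2 * ρ ^ (2 * n)) := by
    rw [← ofReal_integral_eq_lintegral_ofReal]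
    · congr 1
      rw [← integral_Ioc_eq_integral_Ioo, ← intervalIntegral.integral_of_le hρ.le,
        intervalIntegral.integral_finsetSum, Finset.mul_sum]
      · refine Finset.sum_congr rfl fun n _ => ?_
        rw [intervalIntegral.integral_const_mul, integral_pow]
        rcases Nat.eq_zero_or_pos n with h | h
        · subst h
          simp
        · have h5 : 2 * n - 1 + 1 = 2 * n := by omega
          have h6 : ((2 * n - 1 : ℕ) : ℝ) + 1 = 2 * n := by
            rw [← Nat.cast_add_one, h5]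
            push_cast
            ring
          have hn : (n : ℝ) ≠ 0 := by exact_mod_cast h.ne'
          rw [h5, h6, zero_pow (by omega), sub_zero]
          field_simp
      · intro n _
        exact Continuous.intervalIntegrable (by fun_prop) _ _
    · exact (hcont.integrableOn_Icc (a := 0) (b := ρ)).mono_set Ioo_subset_Icc_self
    · rw [EventuallyLE, ae_restrict_iff' measurableSet_Ioo]
      refine Eventually.of_forall fun r hr => ?_
      exact Finset.sum_nonneg fun n _ => mul_nonneg (by positivity) (pow_nonneg hr.1.le _)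
  rw [h4, ENNReal.ofReal_le_ofReal_iff (by positivity)] at h3
  exact le_of_mul_le_mul_left h3 hpi

end FRG

open FRG in
theorem frg : S_FRG := by
  intro F Λ ν p N hF hΛ hp hpN hS r hr M hM n
  have hN : 1 ≤ N := hp.trans hpN
  have hN0 : (N : ℝ) ≠ 0 := by exact_mod_cast (by omega : N ≠ 0)
  have hNC : (N : ℂ) ≠ 0 := by exact_mod_cast (by omega : N ≠ 0)
  have hM0 : 0 ≤ M := by
    have := hM 0 (by rw [norm_zero]; exact hr.1.le)
    exact (norm_nonneg _).trans this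
  have h01 : (0 : ℂ) ∈ ball (0 : ℂ) 1 := mem_ball_self one_pos
  have hvN : ∀ v : ℂ, v ∈ ball (0 : ℂ) 1 → v ^ N ∈ ball (0 : ℂ) 1 := by
    intro v hv
    rw [mem_ball_zero_iff] at hv ⊢
    rw [norm_pow]
    exact pow_lt_one₀ (norm_nonneg _) hv (by omega)
  obtain ⟨G, hG⟩ : ∃ G : ℂ → ℂ, G = fun v => v * Complex.exp (Λ (0, v ^ N) / N) := ⟨_, rfl⟩
  have hG' : ∀ v, G v = v * Complex.exp (Λ (0, v ^ N) / N) := fun v => by rw [hG]
  have hGN : ∀ v ∈ ball (0 : ℂ) 1, G v ^ N = F (v ^ N) := by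
    intro v hv
    have h1 := hΛ.exp 0 h01 (v ^ N) (hvN v hv)
    rw [hF.zero, sub_zero, sub_zero] at h1
    rw [hG' v, mul_pow, ← Complex.exp_nat_mul, mul_div_cancel₀ _ hNC, ← h1]
    ring
  have hd : DifferentiableOn ℂ G (ball 0 1) := by
    rw [hG]
    refine differentiableOn_id.mul (DifferentiableOn.cexp (DifferentiableOn.div_const ?_ _))
    refine hΛ.diff.comp (f := fun v : ℂ => ((0 : ℂ), v ^ N)) ?_ ?_
    · fun_prop
    · intro v hv
      exact ⟨h01, hvN v hv⟩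
  have hi : InjOn G (ball 0 1) := by
    intro v hv u hu h
    have h1 : F (v ^ N) = F (u ^ N) := by rw [← hGN v hv, ← hGN u hu, h]
    have h2 := hF.inj (hvN v hv) (hvN u hu) h1
    rw [hG', hG', h2] at h
    exact mul_right_cancel₀ (Complex.exp_ne_zero _) h
  -- the power series of `G ^ p`
  obtain ⟨c, hc⟩ : ∃ c : ℕ → ℂ, c = fun m => if p ≤ m ∧ (m - p) % N = 0 then ν 0 ((m - p) / N)
    else 0 := ⟨_, rfl⟩
  have hc1 : ∀ m, c (N * m + p) = ν 0 m := by
    intro m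
    rw [hc]
    have a0 : N * m + p - p = N * m := by omega
    simp only [a0]
    rw [if_pos ⟨by omega, Nat.mul_mod_right N m⟩, Nat.mul_div_cancel_left m (by omega)]
  have hc0 : ∀ m, (¬ ∃ a, N * a + p = m) → c m = 0 := by
    intro m hm
    rw [hc]
    simp only
    rw [if_neg]
    rintro ⟨b1, b2⟩
    refine hm ⟨(m - p) / N, ?_⟩
    have := Nat.div_add_mod (m - p) N
    omega
  have hser : ∀ z ∈ ball (0 : ℂ) 1, HasSum (fun m => ν 0 m * z ^ m)
      (Complex.exp ((((p : ℝ) / N : ℝ) : ℂ) * Λ (0, z))) := by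
    intro z hz
    have h1 := hS.2 0 h01 z hz
    have hinj : Function.Injective (fun b : ℕ => ((0 : ℕ), b)) := fun a b h => by
      simpa using h
    have h2 := (hinj.hasSum_iff (f := fun p : ℕ × ℕ => ν p.1 p.2 * (0 : ℂ) ^ p.1 * z ^ p.2)
      (a := Complex.exp ((((p : ℝ) / N : ℝ) : ℂ) * Λ (0, z))) (by
        intro p hp
        have h3 : p.1 ≠ 0 := by
          intro h4
          exact hp ⟨p.2, by rw [← h4]⟩
        rw [zero_pow h3, mul_zero, zero_mul])).2 h1
    refine h2.congr_fun ?_ |> fun h => h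
    intro m
    simp
  have hGp : ∀ v, G v ^ p = v ^ p * Complex.exp ((((p : ℝ) / N : ℝ) : ℂ) * Λ (0, v ^ N)) := by
    intro v
    rw [hG' v, mul_pow, ← Complex.exp_nat_mul]
    congr 2
    push_cast
    ring
  have hinjN : Function.Injective (fun m : ℕ => N * m + p) := fun a b h => by
    simp only at h
    have h2 : N * a = N * b := by omega
    exact Nat.eq_of_mul_eq_mul_left (by omega) h2
  have hs : ∀ v ∈ ball (0 : ℂ) 1, HasSum (fun m => c m * v ^ m) (G v ^ p) := by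
    intro v hv
    have h1 := (hser (v ^ N) (hvN v hv)).mul_left (v ^ p)
    rw [hGp v]
    refine (hinjN.hasSum_iff (f := fun n => c n * v ^ n) (by
      intro m hm
      rw [hc0 m (fun ⟨a, ha⟩ => hm ⟨a, ha⟩), zero_mul])).1 ?_
    refine h1.congr_fun ?_ |> fun h => h
    intro m
    simp only [Function.comp]
    rw [hc1, pow_add, pow_mul]
    ring
  -- the radius
  set ρ : ℝ := r ^ ((1 : ℝ) / N) with hρd
  have hNpos : (0 : ℝ) < 1 / N := by positivity
  have hρ0 : 0 < ρ := Real.rpow_pos_of_pos hr.1 _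
  have hρ1 : ρ < 1 := Real.rpow_lt_one hr.1.le hr.2 hNpos
  have hρN : ρ ^ N = r := by
    rw [hρd, ← Real.rpow_natCast, ← Real.rpow_mul hr.1.le, one_div, inv_mul_cancel₀ hN0,
      Real.rpow_one]
  set L : ℝ := M ^ ((1 : ℝ) / N) with hLd
  have hL0 : 0 ≤ L := Real.rpow_nonneg hM0 _
  have hLp : L ^ (2 * p) = M ^ (2 * ((p : ℝ) / N)) := by
    rw [hLd, ← Real.rpow_natCast, ← Real.rpow_mul hM0]
    congr 1
    push_cast
    ring
  have hLb : ∀ z : ℂ, ‖z‖ < ρ → ‖G z‖ ≤ L := by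
    intro z hz
    have hz1 : z ∈ ball (0 : ℂ) 1 := mem_ball_zero_iff.2 (hz.trans hρ1)
    have h1 : ‖G z‖ ^ N ≤ M := by
      rw [← norm_pow, hGN z hz1]
      refine hM _ ?_
      rw [norm_pow, ← hρN]
      exact pow_le_pow_left₀ (norm_nonneg _) hz.le N
    have h2 : ‖G z‖ = (‖G z‖ ^ N) ^ ((1 : ℝ) / N) := by
      rw [← Real.rpow_natCast, ← Real.rpow_mul (norm_nonneg _), mul_one_div_cancel hN0,
        Real.rpow_one]
    rw [h2, hLd]
    exact Real.rpow_le_rpow (by positivity) h1 hNpos.le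
  have harea := image_area hd hi hρ1 hL0 hLb p hp
  have h1 := area_gen hs (hd.pow p) hρ0 hρ1 (by positivity) harea (N * n + p)
  rw [hLp] at h1
  refine le_trans ?_ h1
  -- the sum over the progression
  have h2 : ∑ m ∈ Finset.range n, ((N : ℝ) * m + p) * ‖ν 0 m‖ ^ 2 * r ^ (2 * m) *
      r ^ (2 * ((p : ℝ) / N)) = ∑ m ∈ (Finset.range n).image (fun m => N * m + p),
        (m : ℝ) * ‖c m‖ ^ 2 * ρ ^ (2 * m) := by
    rw [Finset.sum_image (fun a _ b _ h => hinjN h)]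
    refine Finset.sum_congr rfl fun m _ => ?_
    rw [hc1]
    have e1 : ρ ^ (2 * (N * m + p)) = r ^ (2 * m) * r ^ (2 * ((p : ℝ) / N)) := by
      have e2 : 2 * (N * m + p) = N * (2 * m) + 2 * p := by ring
      rw [e2, pow_add, pow_mul, hρN]
      congr 1
      rw [hρd, ← Real.rpow_natCast, ← Real.rpow_mul hr.1.le]
      congr 1
      push_cast
      ring
    rw [e1]
    push_cast
    ring
  rw [h2]
  refine Finset.sum_le_sum_of_subset_of_nonneg ?_ fun m _ _ => by positivity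
  intro m hm
  rw [Finset.mem_image] at hm
  obtain ⟨a, ha, rfl⟩ := hm
  rw [Finset.mem_range] at ha ⊢
  have : N * a < N * n := Nat.mul_lt_mul_of_pos_left ha (by omega)
  omega

end Pool.Agent.H7.KR
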