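import Pool.Agent.H7.KR.Stm
import Pool.Agent.H64.CX.HBN

/-! # KR-GDG: the diagonal coefficients (adapted from SZ/GD by helper56, CX/HBN) -/

set_option autoImplicit false

namespace Pool.Agent.H7.KR

open Finset
open Pool.Agent.H64.CX (bt rr TP TN GD)

namespace GDP

lemma TP_diag (α : ℂ) (ν : ℕ → ℕ → ℂ) (m : ℕ) : TP α ν m m = ν 0 m := by
  unfold TP
  rw [Nat.Ico_succ_singleton, Finset.sum_singleton, Nat.sub_self]
  unfold bt
  simp

lemma wt_pos (μ : ℝ) (j : ℕ) : 0 < wt μ j := by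
  unfold wt
  positivity

end GDP

open GDP in
theorem gdg : S_GDG := by
  intro hHID hBTU s σ hs0 hs1 hσ hμ1
  obtain ⟨C₀, hC0, hC⟩ := hBTU (2 - (-(s : ℂ)))
  obtain ⟨μ, hμ⟩ : ∃ μ : ℝ, μ = σ - 2 * s := ⟨_, rfl⟩
  rw [← hμ] at hμ1
  rw [← hμ]
  obtain ⟨D, hD0, hD⟩ := Pool.Agent.H64.CX.HbnAux.sum_le μ hμ1
  refine ⟨8 * C₀ ^ 2 * (D + 1), by positivity, ?_⟩
  intro ν hν m hm
  have hmR : (1 : ℝ) ≤ m := by exact_mod_cast hm
  have hm0 : (0 : ℝ) < m := by linarith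
  have h1 := hHID (-(s : ℂ)) ν hν m hm
  have hb : ∀ n : ℕ, 1 ≤ n → ‖bt (2 - (-(s : ℂ))) (n - 1)‖ ≤ C₀ * (n : ℝ) ^ (1 + s) := by
    intro n hn
    have h2 := hC (n - 1)
    have h3 : ((n - 1 : ℕ) : ℝ) + 1 = n := by
      rw [Nat.cast_sub hn]; push_cast; ring
    have h4 : (2 - (-(s : ℂ))).re - 1 = 1 + s := by
      simp
      ring
    rw [h3, h4] at h2
    exact h2
  obtain ⟨S, hS⟩ : ∃ S : ℝ, S = ∑ n ∈ Ico 1 m, (n : ℝ) ^ (1 + s) * ‖TP (-(s : ℂ)) ν n m‖ :=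
    ⟨_, rfl⟩
  have hS0 : 0 ≤ S := by
    rw [hS]; exact Finset.sum_nonneg fun n _ => by positivity
  -- the triangle inequality
  have h2 : (m : ℝ) / 2 * ‖GD ν m‖ ≤ C₀ * S + C₀ * ((m : ℝ) ^ (1 + s) * ‖ν 0 m‖) := by
    have h3 : ‖(m : ℂ) / 2 * GD ν m‖ = (m : ℝ) / 2 * ‖GD ν m‖ := by
      rw [norm_mul, norm_div, Complex.norm_natCast]
      norm_num
    have h4 : Icc 1 m = insert m (Ico 1 m) := by
      ext n
      rw [mem_Icc, mem_insert, mem_Ico]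
      omega
    rw [← h3, h1, h4, Finset.sum_insert (by simp), TP_diag]
    refine (norm_add_le _ _).trans ?_
    rw [add_comm]
    apply add_le_add
    · rw [hS, Finset.mul_sum]
      refine (norm_sum_le _ _).trans (Finset.sum_le_sum fun n hn => ?_)
      rw [norm_mul, ← mul_assoc]
      exact mul_le_mul_of_nonneg_right (hb n (mem_Ico.1 hn).1) (norm_nonneg _)
    · rw [norm_mul, ← mul_assoc]
      exact mul_le_mul_of_nonneg_right (hb m hm) (norm_nonneg _)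
  -- Cauchy-Schwarz
  obtain ⟨E, hE⟩ : ∃ E : ℝ, E = PG s μ ν m := ⟨_, rfl⟩
  have hE0 : 0 ≤ E := by
    rw [hE]
    unfold PG
    exact Finset.sum_nonneg fun n _ => by have := wt_pos μ (m - n); positivity
  have h3 : S ^ 2 ≤ ((m : ℝ) ^ (1 + 2 * s) * (D * (m : ℝ) ^ (1 + μ))) * E := by
    have h4 : S ^ 2 ≤ (∑ n ∈ Ico 1 m, (n : ℝ) ^ (1 + 2 * s) / wt μ (m - n)) *
        ∑ n ∈ Ico 1 m, (n : ℝ) * wt μ (m - n) * ‖TP (-(s : ℂ)) ν n m‖ ^ 2 := by
      rw [hS]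
      apply Finset.sum_sq_le_sum_mul_sum_of_sq_eq_mul
      · intro n _
        have := wt_pos μ (m - n)
        positivity
      · intro n _
        have := wt_pos μ (m - n)
        positivity
      · intro n hn
        have hn1 : (1 : ℝ) ≤ n := by exact_mod_cast (mem_Ico.1 hn).1
        have hn0 : (0 : ℝ) < n := by linarith
        have hw := (wt_pos μ (m - n)).ne'
        have h5 : ((n : ℝ) ^ (1 + s)) ^ 2 = (n : ℝ) ^ (1 + 2 * s) * n := by
          rw [← Real.rpow_natCast, ← Real.rpow_mul hn0.le]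
          nth_rewrite 3 [← Real.rpow_one (n : ℝ)]
          rw [← Real.rpow_add hn0]
          congr 1
          push_cast
          ring
        rw [mul_pow, h5]
        field_simp
    refine h4.trans ?_
    apply mul_le_mul
    · have h6 := hD m
      have h7 : ∑ n ∈ Ico 1 m, (n : ℝ) ^ (1 + 2 * s) / wt μ (m - n) ≤
          ∑ n ∈ Icc 1 m, (m : ℝ) ^ (1 + 2 * s) * ((m : ℝ) - n + 1) ^ μ := by
        have h8 : ∀ n ∈ Ico 1 m, (n : ℝ) ^ (1 + 2 * s) / wt μ (m - n) ≤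
            (m : ℝ) ^ (1 + 2 * s) * ((m : ℝ) - n + 1) ^ μ := by
          intro n hn
          have hnm : n ≤ m := (mem_Ico.1 hn).2.le
          have hnm' : (n : ℝ) ≤ m := by exact_mod_cast hnm
          have h9 : (wt μ (m - n))⁻¹ = ((m : ℝ) - n + 1) ^ μ := by
            unfold wt
            rw [Nat.cast_sub hnm, ← Real.rpow_neg (by linarith)]
            congr 1
            ring
          rw [div_eq_mul_inv, h9]
          apply mul_le_mul_of_nonneg_right _ (Real.rpow_nonneg (by linarith) _)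
          exact Real.rpow_le_rpow (Nat.cast_nonneg _) hnm' (by linarith)
        refine (Finset.sum_le_sum h8).trans ?_
        apply Finset.sum_le_sum_of_subset_of_nonneg
        · intro n hn
          rw [mem_Ico] at hn
          rw [mem_Icc]
          omega
        · intro n hn _
          have hnm' : (n : ℝ) ≤ m := by exact_mod_cast (mem_Icc.1 hn).2
          have := Real.rpow_nonneg (by linarith : 0 ≤ (m : ℝ) - n + 1) μ
          positivity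
      refine h7.trans ?_
      rw [← Finset.mul_sum]
      exact mul_le_mul_of_nonneg_left h6 (by positivity)
    · rw [hE]
      unfold PG
      apply Finset.sum_le_sum_of_subset_of_nonneg
      · intro n hn
        rw [mem_Ico] at hn
        rw [mem_range]
        exact hn.2
      · intro n _ _
        have := wt_pos μ (m - n)
        positivity
    · exact Finset.sum_nonneg fun n _ => by have := wt_pos μ (m - n); positivity
    · positivity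
  -- conclusion
  obtain ⟨y, hy⟩ : ∃ y : ℝ, y = ‖ν 0 m‖ := ⟨_, rfl⟩
  have hy0 : 0 ≤ y := by rw [hy]; exact norm_nonneg _
  rw [← hy] at h2 ⊢
  rw [← hE]
  obtain ⟨g, hg⟩ : ∃ g : ℝ, g = ‖GD ν m‖ := ⟨_, rfl⟩
  have hg0 : 0 ≤ g := by rw [hg]; exact norm_nonneg _
  rw [← hg] at h2 ⊢
  obtain ⟨T, hT⟩ : ∃ T : ℝ, T = (m : ℝ) ^ (1 + s) := ⟨_, rfl⟩
  have hT2 : T ^ 2 = (m : ℝ) ^ 2 * (m : ℝ) ^ (2 * s) := by
    rw [hT, ← Real.rpow_natCast, ← Real.rpow_mul hm0.le, ← Real.rpow_natCast,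
      ← Real.rpow_add hm0]
    congr 1
    push_cast
    ring
  have hT0 : 0 ≤ T := by rw [hT]; positivity
  rw [← hT] at h2
  have h5 : ((m : ℝ) / 2 * g) ^ 2 ≤ 2 * C₀ ^ 2 * (S ^ 2 + T ^ 2 * y ^ 2) := by
    have h6 : ((m : ℝ) / 2 * g) ^ 2 ≤ (C₀ * S + C₀ * (T * y)) ^ 2 :=
      pow_le_pow_left₀ (by positivity) h2 2
    have h7 : 0 ≤ (C₀ * S - C₀ * (T * y)) ^ 2 := sq_nonneg _
    nlinarith
  have hpow : (m : ℝ) ^ (1 + 2 * s) * (D * (m : ℝ) ^ (1 + μ)) =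
      (m : ℝ) ^ 2 * (D * (m : ℝ) ^ σ) := by
    have : (m : ℝ) ^ (1 + 2 * s) * (m : ℝ) ^ (1 + μ) = (m : ℝ) ^ 2 * (m : ℝ) ^ σ := by
      rw [← Real.rpow_natCast, ← Real.rpow_add hm0, ← Real.rpow_add hm0, hμ]
      congr 1
      push_cast
      ring
    linear_combination D * this
  rw [hpow] at h3
  have h9 : (m : ℝ) ^ σ ≤ ((m : ℝ) + 1) ^ σ := Real.rpow_le_rpow hm0.le (by linarith) hσ.le
  have h9' : (m : ℝ) ^ (2 * s) ≤ ((m : ℝ) + 1) ^ (2 * s) :=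
    Real.rpow_le_rpow hm0.le (by linarith) (by linarith)
  have k1 : S ^ 2 ≤ (m : ℝ) ^ 2 * (D * (((m : ℝ) + 1) ^ σ * E)) := by
    refine h3.trans ?_
    have k3 : D * (m : ℝ) ^ σ * E ≤ D * ((m : ℝ) + 1) ^ σ * E :=
      mul_le_mul_of_nonneg_right (mul_le_mul_of_nonneg_left h9 hD0) hE0
    have := mul_le_mul_of_nonneg_left k3 (sq_nonneg (m : ℝ))
    calc (m : ℝ) ^ 2 * (D * (m : ℝ) ^ σ) * E = (m : ℝ) ^ 2 * (D * (m : ℝ) ^ σ * E) := by ring
      _ ≤ _ := this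
      _ = _ := by ring
  have k4 : T ^ 2 * y ^ 2 ≤ (m : ℝ) ^ 2 * (((m : ℝ) + 1) ^ (2 * s) * y ^ 2) := by
    rw [hT2, mul_assoc]
    apply mul_le_mul_of_nonneg_left _ (sq_nonneg (m : ℝ))
    exact mul_le_mul_of_nonneg_right h9' (sq_nonneg y)
  have k5 : 0 ≤ ((m : ℝ) + 1) ^ σ * E := by positivity
  have k6 : 0 ≤ ((m : ℝ) + 1) ^ (2 * s) * y ^ 2 := by positivity
  have k7 : D * (((m : ℝ) + 1) ^ σ * E) + ((m : ℝ) + 1) ^ (2 * s) * y ^ 2 ≤
      (D + 1) * (((m : ℝ) + 1) ^ σ * E + ((m : ℝ) + 1) ^ (2 * s) * y ^ 2) := by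
    nlinarith [mul_nonneg hD0 k6]
  have h10 : (m : ℝ) ^ 2 * g ^ 2 ≤ (m : ℝ) ^ 2 * (8 * C₀ ^ 2 * (D + 1) *
      (((m : ℝ) + 1) ^ σ * E + ((m : ℝ) + 1) ^ (2 * s) * y ^ 2)) := by
    calc (m : ℝ) ^ 2 * g ^ 2 = 4 * ((m : ℝ) / 2 * g) ^ 2 := by ring
      _ ≤ 4 * (2 * C₀ ^ 2 * (S ^ 2 + T ^ 2 * y ^ 2)) := by linarith
      _ ≤ 4 * (2 * C₀ ^ 2 * ((m : ℝ) ^ 2 * (D * (((m : ℝ) + 1) ^ σ * E)) +
            (m : ℝ) ^ 2 * (((m : ℝ) + 1) ^ (2 * s) * y ^ 2))) := by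
          apply mul_le_mul_of_nonneg_left _ (by norm_num)
          apply mul_le_mul_of_nonneg_left _ (by positivity)
          linarith
      _ = (m : ℝ) ^ 2 * (8 * C₀ ^ 2) * (D * (((m : ℝ) + 1) ^ σ * E) +
            ((m : ℝ) + 1) ^ (2 * s) * y ^ 2) := by ring
      _ ≤ (m : ℝ) ^ 2 * (8 * C₀ ^ 2) * ((D + 1) * (((m : ℝ) + 1) ^ σ * E +
            ((m : ℝ) + 1) ^ (2 * s) * y ^ 2)) := mul_le_mul_of_nonneg_left k7 (by positivity)
      _ = _ := by ring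
  exact le_of_mul_le_mul_left h10 (by positivity)

end Pool.Agent.H7.KR
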