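import Pool.Agent.H7.KR.Stm

/-! KR-JEN -/

set_option autoImplicit false

namespace Pool.Agent.H7.KR

open Metric Set Filter Topology MeasureTheory

theorem jen : S_JEN := by
  intro g a b r hg ha hab hr
  have hb : 0 < b := ha.trans_le hab
  have hpi := Real.pi_pos
  set h : ℝ → ℝ := fun t => ‖g (circleMap 0 r t)‖ with hh
  have hcont : Continuous h := by
    refine Continuous.norm ?_
    refine hg.comp_continuous (continuous_circleMap 0 r) fun t => ?_
    rw [mem_ball_zero_iff]
    simp [circleMap, abs_of_pos hr.1, hr.2]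
  have hh0 : ∀ t, 0 ≤ h t := fun t => norm_nonneg _
  have ca : Continuous (fun t => h t ^ a) := hcont.rpow_const fun t => Or.inr ha.le
  have cb : Continuous (fun t => h t ^ b) := hcont.rpow_const fun t => Or.inr hb.le
  have hval : ∀ f : ℝ → ℝ, (1 / (2 * Real.pi)) * ∫ t in (0 : ℝ)..(2 * Real.pi), f t =
      ⨍ t in Ioc 0 (2 * Real.pi), f t := by
    intro f
    rw [setAverage_eq, intervalIntegral.integral_of_le (by positivity), smul_eq_mul]
    congr 1
    rw [measureReal_def, Real.volume_Ioc, sub_zero, ENNReal.toReal_ofReal (by positivity), one_div]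
  have hconv : ConvexOn ℝ (Ici (0 : ℝ)) (fun x : ℝ => x ^ (b / a)) :=
    convexOn_rpow (by rw [one_le_div ha]; exact hab)
  have hcomp : (fun x : ℝ => x ^ (b / a)) ∘ (fun t => h t ^ a) = fun t => h t ^ b := by
    funext t
    simp only [Function.comp]
    rw [← Real.rpow_mul (hh0 t), mul_div_cancel₀ _ ha.ne']
  have hJ := hconv.map_set_average_le (μ := volume) (t := Ioc 0 (2 * Real.pi))
    (f := fun t => h t ^ a)
    (Continuous.continuousOn (Real.continuous_rpow_const (by positivity))) isClosed_Ici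
    (by rw [Real.volume_Ioc]; simp [hpi]) (by rw [Real.volume_Ioc]; exact ENNReal.ofReal_ne_top)
    (Eventually.of_forall fun t => Real.rpow_nonneg (hh0 t) _)
    (ca.integrableOn_Ioc) (by rw [hcomp]; exact cb.integrableOn_Ioc)
  have hJ' : (⨍ t in Ioc 0 (2 * Real.pi), h t ^ a) ^ (b / a) ≤
      ⨍ t in Ioc 0 (2 * Real.pi), h t ^ b := by
    refine hJ.trans (le_of_eq ?_)
    have : (fun t => (h t ^ a) ^ (b / a)) = fun t => h t ^ b := hcomp
    simp only [this]
  unfold II
  rw [hval, hval]
  have hA : 0 ≤ ⨍ t in Ioc 0 (2 * Real.pi), h t ^ a := by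
    rw [← hval]
    refine mul_nonneg (by positivity) (intervalIntegral.integral_nonneg (by positivity)
      fun t _ => Real.rpow_nonneg (hh0 t) _)
  have h3 := Real.rpow_le_rpow (Real.rpow_nonneg hA _) hJ' (by positivity : 0 ≤ 1 / b)
  rw [← Real.rpow_mul hA] at h3
  have h4 : b / a * (1 / b) = 1 / a := by field_simp
  rw [h4] at h3
  exact h3

end Pool.Agent.H7.KR
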