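import Pool.Agent.H7.KR.Stm

/-! KR-KOE -/

set_option autoImplicit false

namespace Pool.Agent.H7.KR

open Metric Set Filter Topology MeasureTheory

namespace KOE

lemma one_sub_ne {z : ℂ} (hz : z ∈ ball (0 : ℂ) 1) : 1 - z ≠ 0 := by
  intro h
  rw [mem_ball_zero_iff] at hz
  have : z = 1 := (sub_eq_zero.1 h).symm
  rw [this, norm_one] at hz
  exact lt_irrefl _ hz

lemma hasDeriv {z : ℂ} (hz : z ∈ ball (0 : ℂ) 1) :
    HasDerivAt (fun z : ℂ => z / (1 - z) ^ 2) ((1 + z) / (1 - z) ^ 3) z := by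
  have h := one_sub_ne hz
  have h1 : HasDerivAt (fun z : ℂ => (1 - z) ^ 2) (-(2 * (1 - z))) z := by
    have h0 : HasDerivAt (fun z : ℂ => 1 - z) (-1) z := (hasDerivAt_id z).const_sub 1
    refine (h0.fun_pow 2).congr_deriv ?_
    simp
  have h2 := (hasDerivAt_id z).div h1 (pow_ne_zero 2 h)
  refine h2.congr_deriv ?_
  simp
  field_simp
  ring

lemma inj : InjOn (fun z : ℂ => z / (1 - z) ^ 2) (ball 0 1) := by
  intro z hz w hw h
  have h1 := one_sub_ne hz
  have h2 := one_sub_ne hw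
  simp only at h
  rw [div_eq_div_iff (pow_ne_zero 2 h1) (pow_ne_zero 2 h2)] at h
  have h3 : (z - w) * (1 - z * w) = 0 := by linear_combination h
  rcases mul_eq_zero.1 h3 with h4 | h4
  · exact sub_eq_zero.1 h4
  · exfalso
    rw [mem_ball_zero_iff] at hz hw
    have h5 : z * w = 1 := (sub_eq_zero.1 h4).symm
    have h6 := congrArg norm h5
    rw [norm_mul, norm_one] at h6
    nlinarith [norm_nonneg z, norm_nonneg w]

/-- lower bound for the derivative near `1` -/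
lemma low {r t : ℝ} (hr : r ∈ Ioo (0 : ℝ) 1) (ht0 : 0 ≤ t) (ht : t ≤ 1 - r) :
    (1 / 8) * (1 - r) ^ (-3 : ℝ) ≤ ‖deriv (fun z : ℂ => z / (1 - z) ^ 2) (circleMap 0 r t)‖ := by
  obtain ⟨hr0, hr1⟩ := hr
  have hz : circleMap 0 r t ∈ ball (0 : ℂ) 1 := by
    rw [mem_ball_zero_iff]
    simp [circleMap, abs_of_pos hr0, hr1]
  rw [(hasDeriv hz).deriv, norm_div, norm_pow]
  have hpos : 0 < 1 - r := by linarith
  set z := circleMap 0 r t with hzd
  have hre : z.re = r * Real.cos t := by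
    simp [hzd, circleMap, Complex.exp_ofReal_mul_I_re]
  have h1 : 1 ≤ ‖1 + z‖ := by
    have h2 : (1 + z).re ≤ ‖1 + z‖ := Complex.re_le_norm _
    have h3 : 0 ≤ Real.cos t := by
      refine Real.cos_nonneg_of_mem_Icc ⟨?_, ?_⟩
      · linarith [Real.pi_pos]
      · linarith [Real.pi_gt_three]
    rw [Complex.add_re, Complex.one_re, hre] at h2
    nlinarith
  have h2 : ‖1 - z‖ ≤ 2 * (1 - r) := by
    have e1 : 1 - z = ((1 - r : ℝ) : ℂ) + r * (1 - Complex.exp (t * Complex.I)) := by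
      simp only [hzd, circleMap, zero_add]
      push_cast
      ring
    rw [e1]
    refine (norm_add_le _ _).trans ?_
    have e2 : ‖((1 - r : ℝ) : ℂ)‖ = 1 - r := by
      rw [Complex.norm_real, Real.norm_eq_abs, abs_of_pos hpos]
    have e3 : ‖(1 : ℂ) - Complex.exp (t * Complex.I)‖ ≤ t := by
      have := Real.norm_exp_I_mul_ofReal_sub_one_le (x := t)
      rw [norm_sub_rev, mul_comm]
      refine this.trans ?_
      rw [Real.norm_eq_abs, abs_of_nonneg ht0]
    rw [e2, norm_mul, Complex.norm_real, Real.norm_eq_abs, abs_of_pos hr0]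
    nlinarith [norm_nonneg ((1 : ℂ) - Complex.exp (t * Complex.I))]
  have h3 : 0 < ‖1 - z‖ := norm_pos_iff.2 (one_sub_ne hz)
  rw [le_div_iff₀ (pow_pos h3 3)]
  have h4 : ‖1 - z‖ ^ 3 ≤ (2 * (1 - r)) ^ 3 := pow_le_pow_left₀ h3.le h2 3
  have h5 : (1 - r) ^ (-3 : ℝ) = ((1 - r) ^ 3)⁻¹ := by
    rw [Real.rpow_neg hpos.le]
    norm_cast
  rw [h5]
  calc 1 / 8 * ((1 - r) ^ 3)⁻¹ * ‖1 - z‖ ^ 3 ≤ 1 / 8 * ((1 - r) ^ 3)⁻¹ * (2 * (1 - r)) ^ 3 :=
        mul_le_mul_of_nonneg_left h4 (by positivity)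
    _ = 1 := by
        field_simp
        norm_num
    _ ≤ ‖1 + z‖ := h1

lemma cont {r : ℝ} (hr : r ∈ Ioo (0 : ℝ) 1) :
    Continuous (fun t : ℝ => ‖deriv (fun z : ℂ => z / (1 - z) ^ 2) (circleMap 0 r t)‖) := by
  have hz : ∀ t, circleMap 0 r t ∈ ball (0 : ℂ) 1 := by
    intro t
    rw [mem_ball_zero_iff]
    simp [circleMap, abs_of_pos hr.1, hr.2]
  have h1 : (fun t : ℝ => ‖deriv (fun z : ℂ => z / (1 - z) ^ 2) (circleMap 0 r t)‖) =
      fun t : ℝ => ‖(1 + circleMap 0 r t) / (1 - circleMap 0 r t) ^ 3‖ := by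
    funext t
    rw [(hasDeriv (hz t)).deriv]
  rw [h1]
  refine Continuous.norm ?_
  refine Continuous.div ?_ ?_ ?_
  · exact continuous_const.add (continuous_circleMap 0 r)
  · exact (continuous_const.sub (continuous_circleMap 0 r)).pow 3
  · intro t
    exact pow_ne_zero 3 (one_sub_ne (hz t))

end KOE

open KOE in
theorem koe : S_KOE := by
  refine ⟨fun z hz => (hasDeriv hz).differentiableAt.differentiableWithinAt, inj, ?_⟩
  intro lam hlam
  refine ⟨(1 / (2 * Real.pi)) ^ (1 / lam) * (1 / 8), by positivity, ?_⟩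
  intro r hr
  have hpos : 0 < 1 - r := by linarith [hr.2]
  have hpi := Real.pi_pos
  have hcont := cont hr
  set h : ℝ → ℝ := fun t => ‖deriv (fun z : ℂ => z / (1 - z) ^ 2) (circleMap 0 r t)‖ with hh
  have hcl : Continuous (fun t => h t ^ lam) := hcont.rpow_const fun t => Or.inr hlam.le
  have h1 : ((1 / 8) * (1 - r) ^ (-3 : ℝ)) ^ lam * (1 - r) ≤
      ∫ t in (0 : ℝ)..(2 * Real.pi), h t ^ lam := by
    have e1 : ∫ t in (0 : ℝ)..(1 - r), ((1 / 8) * (1 - r) ^ (-3 : ℝ)) ^ lam ≤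
        ∫ t in (0 : ℝ)..(1 - r), h t ^ lam := by
      refine intervalIntegral.integral_mono_on hpos.le
        (continuous_const.intervalIntegrable _ _) (hcl.intervalIntegrable _ _) ?_
      intro t ht
      refine Real.rpow_le_rpow (by positivity) (low hr ht.1 ht.2) hlam.le
    rw [intervalIntegral.integral_const, smul_eq_mul, sub_zero] at e1
    have e2 : ∫ t in (0 : ℝ)..(2 * Real.pi), h t ^ lam =
        (∫ t in (0 : ℝ)..(1 - r), h t ^ lam) + ∫ t in (1 - r)..(2 * Real.pi), h t ^ lam :=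
      (intervalIntegral.integral_add_adjacent_intervals (hcl.intervalIntegrable _ _)
        (hcl.intervalIntegrable _ _)).symm
    have e3 : 0 ≤ ∫ t in (1 - r)..(2 * Real.pi), h t ^ lam := by
      refine intervalIntegral.integral_nonneg ?_ fun t _ => Real.rpow_nonneg (norm_nonneg _) _
      linarith [Real.pi_gt_three, hr.1]
    rw [e2]
    linarith
  unfold II
  have h2 : (1 / (2 * Real.pi)) * (((1 / 8) * (1 - r) ^ (-3 : ℝ)) ^ lam * (1 - r)) ≤
      (1 / (2 * Real.pi)) * ∫ t in (0 : ℝ)..(2 * Real.pi), h t ^ lam :=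
    mul_le_mul_of_nonneg_left h1 (by positivity)
  have h3 := Real.rpow_le_rpow (by positivity) h2 (by positivity : 0 ≤ 1 / lam)
  refine le_trans (le_of_eq ?_) h3
  rw [Real.mul_rpow (by positivity) (by positivity), Real.mul_rpow (by positivity) hpos.le,
    ← Real.rpow_mul (by positivity), mul_one_div_cancel hlam.ne', Real.rpow_one]
  have h4 : (1 - r) ^ (-(3 - 1 / lam)) = (1 - r) ^ (-3 : ℝ) * (1 - r) ^ (1 / lam) := by
    rw [← Real.rpow_add hpos]
    congr 1
    ring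
  rw [h4]
  ring

end Pool.Agent.H7.KR
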