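import Pool.Agent.H7.KR.Stm
import Pool.Agent.H7.SZ.KER

set_option autoImplicit false

/-! # KR-LK: the logarithm of the divided difference (helper40, after SZ-KER of helper90) -/

namespace Pool.Agent.H7.KR

open Metric Set Filter Topology
open Pool.Agent.W677.Mar Pool.Agent.W5h41.MA
open Pool.Agent.H7.SZ (Sc ker_aux)

theorem lk : S_LK := by
  intro F S
  obtain ⟨Y, H, Sg', hYne, hFY, hN⟩ := ker_aux S
  have hYd := Sg'.G.diff
  have h00 : (0 : ℂ) ∈ ball (0 : ℂ) 1 := mem_ball_self one_pos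
  obtain ⟨f, L⟩ := exists_Lg Sg'
  obtain ⟨ly, hlyd, hly0, hlye⟩ := Pool.Agent.H64.BR.uni_log (N := Y) hYd Sg'.G.one hYne
  have hsq : ∀ ζ ∈ ball (0 : ℂ) 1, ∀ z ∈ ball (0 : ℂ) 1,
      Complex.exp (f (ζ, z) - ly ζ - ly z) = NN Y ζ z / (Y ζ * Y z) := by
    intro ζ hζ z hz
    rw [Complex.exp_sub, Complex.exp_sub, L.exp ζ hζ z hz, hlye ζ hζ, hlye z hz, div_div]
  refine ⟨fun p => f p - ly p.1 - ly p.2, ?_, ?_, ?_, ?_, ?_⟩
  · have h1 : DifferentiableOn ℂ (fun p : ℂ × ℂ => ly p.1) (ball (0 : ℂ) 1 ×ˢ ball (0 : ℂ) 1) :=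
      hlyd.comp (f := fun p : ℂ × ℂ => p.1) differentiableOn_fst (fun p hp => hp.1)
    have h2 : DifferentiableOn ℂ (fun p : ℂ × ℂ => ly p.2) (ball (0 : ℂ) 1 ×ˢ ball (0 : ℂ) 1) :=
      hlyd.comp (f := fun p : ℂ × ℂ => p.2) differentiableOn_snd (fun p hp => hp.2)
    exact ((f_joint Sg' L).sub h1).sub h2
  · intro ζ hζ z hz
    show f (ζ, z) - ly ζ - ly z = f (z, ζ) - ly z - ly ζ
    rw [L.symm hζ hz]
    ring
  · intro ζ hζ z hz
    show Complex.exp (f (ζ, z) - ly ζ - ly z) * (z - ζ) = _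
    rw [hsq ζ hζ z hz, hFY z hz, hFY ζ hζ, div_mul_eq_mul_div, NN_mul]
    have h1 := hYne z hz
    have h2 := hYne ζ hζ
    field_simp
  · intro ζ hζ
    show Complex.exp (f (ζ, ζ) - ly ζ - ly ζ) = _
    rw [hsq ζ hζ ζ hζ]
    unfold NN
    rw [dslope_same, hN ζ hζ]
    have h2 := hYne ζ hζ
    field_simp
  · show f (0, 0) - ly 0 - ly 0 = 0
    rw [L.zero 0 h00, hly0]
    simp

end Pool.Agent.H7.KR
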