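import Pool.Agent.H7.KR.Stm
import Pool.Agent.H64.CX.BTU

set_option autoImplicit false

/-! # KR-LOWG (helper48): the negative part is finite (adapted from `SZ/LOW.lean` of helper1) -/

namespace Pool.Agent.H7.KR

open Metric Set Filter Topology MeasureTheory
open scoped ENNReal
open Pool.Agent.H64.CX (bt rr TP TN GD)

namespace LOWGaux

theorem sum_pow {e : ℝ} (he : e < -1) : Summable fun k : ℕ => ((k : ℝ) + 1) ^ e := by
  have h2 : Summable fun k : ℕ => ((k : ℝ)) ^ e := Real.summable_nat_rpow.2 he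
  have h3 := (summable_nat_add_iff 1).2 h2
  refine h3.congr fun m => ?_
  push_cast
  rfl

theorem bt_bound (s : ℝ) : ∃ C : ℝ, 0 ≤ C ∧
    ∀ j : ℕ, ‖bt (-(s : ℂ)) j‖ ≤ C * ((j : ℝ) + 1) ^ (-s - 1) := by
  obtain ⟨C, hC0, hC⟩ := Pool.Agent.H64.CX.btu (-(s : ℂ))
  refine ⟨C, hC0, fun j => ?_⟩
  have h := hC j
  rw [Complex.neg_re, Complex.ofReal_re] at h
  exact h

theorem TN_bound (s : ℝ) (hs : 0 < s) (ν : ℕ → ℕ → ℂ) (m : ℕ) : ∃ D : ℝ, 0 ≤ D ∧ ∀ k : ℕ,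
    ‖TN (-(s : ℂ)) ν (k + 1) m‖ ≤ D * ((k : ℝ) + 1) ^ (-s - 1) := by
  obtain ⟨C, hC0, hC⟩ := bt_bound s
  refine ⟨(∑ b ∈ Finset.range (m + 1), ‖ν (m - b) b‖) * C,
    mul_nonneg (Finset.sum_nonneg fun _ _ => norm_nonneg _) hC0, fun k => ?_⟩
  unfold TN
  refine (norm_sum_le _ _).trans ?_
  rw [Finset.sum_mul, Finset.sum_mul]
  refine Finset.sum_le_sum fun b _ => ?_
  rw [norm_mul, mul_assoc]
  refine mul_le_mul_of_nonneg_left ((hC _).trans ?_) (norm_nonneg _)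
  refine mul_le_mul_of_nonneg_left ?_ hC0
  apply Real.rpow_le_rpow_of_nonpos (by positivity) _ (by linarith)
  push_cast
  linarith [(Nat.cast_nonneg b : (0 : ℝ) ≤ b)]

end LOWGaux

open LOWGaux

theorem lowg : S_LOWG := by
  intro s σ ν m hs hs2 hσ
  obtain ⟨D, hD0, hD⟩ := TN_bound s hs ν m
  obtain ⟨E, hE⟩ : ∃ E : ℝ, E = ((m : ℝ) + 2) ^ (2 * s) := ⟨_, rfl⟩
  have hE0 : 0 ≤ E := by rw [hE]; positivity
  have hS : Summable fun k : ℕ => E * D ^ 2 * ((k : ℝ) + 1) ^ (-(1 + σ)) :=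
    (sum_pow (by linarith)).mul_left _
  have hterm : ∀ k : ℕ, ((k : ℝ) + 1 - s) * wt (σ - 2 * s) (m + k + 1) *
      ‖TN (-(s : ℂ)) ν (k + 1) m‖ ^ 2 ≤ E * D ^ 2 * ((k : ℝ) + 1) ^ (-(1 + σ)) := by
    intro k
    have hk1 : (0 : ℝ) < (k : ℝ) + 1 := by positivity
    have hm0 : (0 : ℝ) ≤ m := Nat.cast_nonneg m
    have hk0 : (0 : ℝ) ≤ k := Nat.cast_nonneg k
    have h1 : wt (σ - 2 * s) (m + k + 1) ≤ E * ((k : ℝ) + 1) ^ (2 * s - σ) := by
      unfold wt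
      push_cast
      have e1 : (-(σ - 2 * s)) = 2 * s + -σ := by ring
      have e2 : 2 * s - σ = 2 * s + -σ := by ring
      rw [e1, e2, Real.rpow_add (by positivity), Real.rpow_add hk1, hE, ← mul_assoc,
        ← Real.mul_rpow (by positivity) hk1.le]
      refine mul_le_mul ?_ ?_ (by positivity) (by positivity)
      · refine Real.rpow_le_rpow (by positivity) ?_ (by linarith)
        nlinarith
      · exact Real.rpow_le_rpow_of_nonpos hk1 (by linarith) (by linarith)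
    have h2 : ‖TN (-(s : ℂ)) ν (k + 1) m‖ ^ 2 ≤ (D * ((k : ℝ) + 1) ^ (-s - 1)) ^ 2 :=
      pow_le_pow_left₀ (norm_nonneg _) (hD k) 2
    have h3 : ((k : ℝ) + 1) * ((k : ℝ) + 1) ^ (2 * s - σ) *
        (((k : ℝ) + 1) ^ (-s - 1) * ((k : ℝ) + 1) ^ (-s - 1)) =
        ((k : ℝ) + 1) ^ (-(1 + σ)) := by
      calc ((k : ℝ) + 1) * ((k : ℝ) + 1) ^ (2 * s - σ) *
            (((k : ℝ) + 1) ^ (-s - 1) * ((k : ℝ) + 1) ^ (-s - 1)) =
            ((k : ℝ) + 1) ^ (1 : ℝ) * ((k : ℝ) + 1) ^ (2 * s - σ) *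
            (((k : ℝ) + 1) ^ (-s - 1) * ((k : ℝ) + 1) ^ (-s - 1)) := by
            rw [Real.rpow_one]
        _ = _ := by
          rw [← Real.rpow_add hk1, ← Real.rpow_add hk1, ← Real.rpow_add hk1]
          congr 1
          ring
    have hw0 : 0 ≤ wt (σ - 2 * s) (m + k + 1) := by unfold wt; positivity
    calc ((k : ℝ) + 1 - s) * wt (σ - 2 * s) (m + k + 1) * ‖TN (-(s : ℂ)) ν (k + 1) m‖ ^ 2 ≤
          (((k : ℝ) + 1) * (E * ((k : ℝ) + 1) ^ (2 * s - σ))) *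
            (D * ((k : ℝ) + 1) ^ (-s - 1)) ^ 2 := by
          refine mul_le_mul ?_ h2 (sq_nonneg _) (by positivity)
          exact mul_le_mul (by linarith) h1 hw0 hk1.le
      _ = E * D ^ 2 * (((k : ℝ) + 1) * ((k : ℝ) + 1) ^ (2 * s - σ) *
          (((k : ℝ) + 1) ^ (-s - 1) * ((k : ℝ) + 1) ^ (-s - 1))) := by ring
      _ = _ := by rw [h3]
  have h : RG s (σ - 2 * s) ν m ≤
      ENNReal.ofReal (∑' k : ℕ, E * D ^ 2 * ((k : ℝ) + 1) ^ (-(1 + σ))) := by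
    unfold RG
    calc _ ≤ ∑' k : ℕ, ENNReal.ofReal (E * D ^ 2 * ((k : ℝ) + 1) ^ (-(1 + σ))) :=
          ENNReal.tsum_le_tsum fun k => ENNReal.ofReal_le_ofReal (hterm k)
      _ = _ := (ENNReal.ofReal_tsum_of_nonneg (fun k => by positivity) hS).symm
  exact ne_top_of_le_ne_top ENNReal.ofReal_ne_top h

end Pool.Agent.H7.KR
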