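import Pool.Agent.H7.KR.Stm
import Pool.Agent.H64.BR.Pars33

set_option autoImplicit false

namespace Pool.Agent.H7.KR

open Metric Set Filter Topology MeasureTheory
open scoped ENNReal

/-- a block of length `K` -/
theorem MNGAux.block {b : ℕ → ℝ} {B x e : ℝ} (hb : ∀ j, 0 ≤ b j) (hx0 : 0 ≤ x)
    (hx1 : x ≤ 1) {K : ℕ} (hK : 1 ≤ K) (hxK : x ^ K ≤ 1 / 2)
    (hA : ∀ M : ℕ, 1 ≤ M → ∑ m ∈ Finset.range M, b m ≤ B * (M : ℝ) ^ e) (i : ℕ) :
    ∑ j ∈ Finset.range (i * K), x ^ j * b j ≤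
      B * (K : ℝ) ^ e * ∑ l ∈ Finset.range i, (1 / 2 : ℝ) ^ l * ((l : ℝ) + 1) ^ e := by
  induction i with
  | zero => simp
  | succ i ih =>
    rw [Nat.succ_mul, Finset.sum_range_add, Finset.sum_range_succ (fun l : ℕ => (1 / 2 : ℝ) ^ l * ((l : ℝ) + 1) ^ e)]
    have h1 : ∑ j ∈ Finset.range K, x ^ (i * K + j) * b (i * K + j) ≤
        (1 / 2) ^ i * (B * (((i : ℝ) + 1) ^ e * (K : ℝ) ^ e)) := by
      calc ∑ j ∈ Finset.range K, x ^ (i * K + j) * b (i * K + j)
          ≤ ∑ j ∈ Finset.range K, (1 / 2) ^ i * b (i * K + j) := by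
            refine Finset.sum_le_sum fun j _ => mul_le_mul_of_nonneg_right ?_ (hb _)
            rw [pow_add, mul_comm i K, pow_mul]
            calc (x ^ K) ^ i * x ^ j ≤ (1 / 2) ^ i * 1 :=
                  mul_le_mul (pow_le_pow_left₀ (pow_nonneg hx0 K) hxK i) (pow_le_one₀ hx0 hx1)
                    (pow_nonneg hx0 j) (by positivity)
              _ = _ := mul_one _
        _ = (1 / 2) ^ i * ∑ j ∈ Finset.range K, b (i * K + j) := by rw [Finset.mul_sum]
        _ ≤ (1 / 2) ^ i * ∑ j ∈ Finset.range (i * K + K), b j := by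
            refine mul_le_mul_of_nonneg_left ?_ (by positivity)
            rw [Finset.sum_range_add]
            have := Finset.sum_nonneg fun j (_ : j ∈ Finset.range (i * K)) => hb j
            linarith
        _ ≤ (1 / 2) ^ i * (B * ((i * K + K : ℕ) : ℝ) ^ e) :=
            mul_le_mul_of_nonneg_left (hA _ (by omega)) (by positivity)
        _ = _ := by
            have h2 : ((i * K + K : ℕ) : ℝ) = ((i : ℝ) + 1) * K := by push_cast; ring
            rw [h2, Real.mul_rpow (by positivity) (by positivity)]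
    refine (add_le_add ih h1).trans (le_of_eq ?_)
    ring

theorem MNGAux.summ (e : ℝ) : Summable fun l : ℕ => (1 / 2 : ℝ) ^ l * ((l : ℝ) + 1) ^ e := by
  have h1 := summable_pow_mul_geometric_of_norm_lt_one (R := ℝ) ⌈e⌉₊
    (r := 1 / 2) (by rw [Real.norm_eq_abs]; norm_num [abs_of_pos])
  have h2 := ((summable_nat_add_iff 1).2 h1).mul_left 2
  refine Summable.of_nonneg_of_le (fun l => by positivity) (fun l => ?_) h2
  have h3 : ((l : ℝ) + 1) ^ e ≤ ((l : ℝ) + 1) ^ ⌈e⌉₊ := by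
    rw [← Real.rpow_natCast]
    exact Real.rpow_le_rpow_of_exponent_le (by linarith [(Nat.cast_nonneg l : (0:ℝ) ≤ l)])
      (Nat.le_ceil e)
  calc (1 / 2 : ℝ) ^ l * ((l : ℝ) + 1) ^ e ≤ (1 / 2 : ℝ) ^ l * ((l : ℝ) + 1) ^ ⌈e⌉₊ :=
        mul_le_mul_of_nonneg_left h3 (by positivity)
    _ = _ := by push_cast; ring

theorem mng : S_MNG := by
  intro e a g B he hB hs hA
  set S : ℝ := ∑' l : ℕ, (1 / 2 : ℝ) ^ l * ((l : ℝ) + 1) ^ e with hS
  have hS0 : 0 ≤ S := tsum_nonneg fun l => by positivity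
  refine ⟨2 * Real.pi * (B * 2 ^ e * S), by positivity, fun r hr => ?_⟩
  have hπ := Real.pi_pos
  have hP := Pool.Agent.H64.BR.parsN (h := g) (b := a) hr.1.le fun z hz =>
    hs z (by rw [mem_ball_zero_iff, hz]; exact hr.2)
  set I : ℝ := ∫ t in (0:ℝ)..(2 * Real.pi), ‖g (circleMap 0 r t)‖ ^ 2 with hI
  have hr1 : 0 < 1 - r := by linarith [hr.2]
  set K : ℕ := ⌈1 / (1 - r)⌉₊ with hKdef
  have hK1 : 1 / (1 - r) ≤ (K : ℝ) := Nat.le_ceil _
  have hone : 1 ≤ 1 / (1 - r) := by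
    rw [le_div_iff₀ hr1]
    linarith [hr.1]
  have hK : 1 ≤ K := by
    have : (1 : ℝ) ≤ K := hone.trans hK1
    exact_mod_cast this
  have hK2 : (K : ℝ) ≤ 2 * (1 / (1 - r)) := by
    have := (Nat.ceil_lt_add_one (show 0 ≤ 1 / (1 - r) by positivity)).le
    linarith
  have hxK : (r ^ 2) ^ K ≤ 1 / 2 := by
    have h1 : r ≤ Real.exp (-(1 - r)) := by
      have := Real.add_one_le_exp (-(1 - r))
      linarith
    calc (r ^ 2) ^ K = r ^ K * r ^ K := by rw [← pow_mul, mul_comm 2 K, pow_mul, sq]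
      _ ≤ r ^ K * 1 := mul_le_mul_of_nonneg_left (pow_le_one₀ hr.1.le hr.2.le) (pow_nonneg hr.1.le _)
      _ = r ^ K := mul_one _
      _ ≤ Real.exp (-(1 - r)) ^ K := pow_le_pow_left₀ hr.1.le h1 K
      _ = Real.exp (-((K : ℝ) * (1 - r))) := by rw [← Real.exp_nat_mul]; ring_nf
      _ ≤ Real.exp (-1) := by
          apply Real.exp_le_exp.2
          have := (div_le_iff₀ hr1).1 hK1
          linarith
      _ ≤ 1 / 2 := by
          rw [Real.exp_neg, one_div]
          refine inv_anti₀ (by norm_num) ?_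
          have := Real.add_one_le_exp (1 : ℝ)
          linarith
  have h1 : (2 * Real.pi)⁻¹ * I ≤ B * 2 ^ e * S * (1 - r) ^ (-e) := by
    refine le_of_tendsto hP.tendsto_sum_nat (Eventually.of_forall fun M => ?_)
    have hx0 : 0 ≤ r ^ 2 := sq_nonneg r
    have hx1 : r ^ 2 ≤ 1 := pow_le_one₀ hr.1.le hr.2.le
    have h2 := MNGAux.block (b := fun j => ‖a j‖ ^ 2) (fun j => sq_nonneg _) hx0 hx1 hK hxK hA M
    have h3 : ∑ j ∈ Finset.range M, (r ^ 2) ^ j * ‖a j‖ ^ 2 ≤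
        ∑ j ∈ Finset.range (M * K), (r ^ 2) ^ j * ‖a j‖ ^ 2 := by
      refine Finset.sum_le_sum_of_subset_of_nonneg (Finset.range_mono (Nat.le_mul_of_pos_right M hK))
        fun j _ _ => by positivity
    have h4 : B * (K : ℝ) ^ e * ∑ l ∈ Finset.range M, (1 / 2 : ℝ) ^ l * ((l : ℝ) + 1) ^ e ≤
        B * (K : ℝ) ^ e * S := by
      refine mul_le_mul_of_nonneg_left ?_ (by positivity)
      exact (MNGAux.summ e).sum_le_tsum _ fun l _ => by positivity
    have h5 : (K : ℝ) ^ e ≤ 2 ^ e * (1 - r) ^ (-e) := by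
      calc (K : ℝ) ^ e ≤ (2 * (1 / (1 - r))) ^ e :=
            Real.rpow_le_rpow (by positivity) hK2 he.le
        _ = 2 ^ e * (1 - r) ^ (-e) := by
            rw [Real.mul_rpow (by norm_num) (by positivity), one_div, Real.inv_rpow hr1.le,
              Real.rpow_neg hr1.le]
    calc ∑ j ∈ Finset.range M, (r ^ 2) ^ j * ‖a j‖ ^ 2 ≤ B * (K : ℝ) ^ e * S :=
          h3.trans (h2.trans h4)
      _ ≤ B * (2 ^ e * (1 - r) ^ (-e)) * S := by gcongr
      _ = _ := by ring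
  have h6 : I = 2 * Real.pi * ((2 * Real.pi)⁻¹ * I) := by field_simp
  calc I = 2 * Real.pi * ((2 * Real.pi)⁻¹ * I) := h6
    _ ≤ 2 * Real.pi * (B * 2 ^ e * S * (1 - r) ^ (-e)) :=
        mul_le_mul_of_nonneg_left h1 (by positivity)
    _ = _ := by ring

end Pool.Agent.H7.KR
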