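import Pool.Agent.H7.KR.Stm
import Pool.Agent.H64.G.R_seed8.Helper240.ZFM.ConvA

set_option autoImplicit false

namespace Pool.Agent.H7.KR

open Metric Set Filter Topology

theorem nrm : S_NRM := by
  intro f hd hi
  have h0 : (0 : ℂ) ∈ ball (0 : ℂ) 1 := mem_ball_self one_pos
  have hne : deriv f 0 ≠ 0 :=
    Pool.Agent.Helper405.Conv.deriv_ne_zero_of_injOn isOpen_ball hd hi h0
  have hder : ∀ z ∈ ball (0 : ℂ) 1,
      deriv (fun z => (f z - f 0) / deriv f 0) z = deriv f z / deriv f 0 := by
    intro z hz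
    have hz' : DifferentiableAt ℂ f z := hd.differentiableAt (isOpen_ball.mem_nhds hz)
    rw [deriv_div_const, deriv_sub_const]
  refine ⟨fun z => (f z - f 0) / deriv f 0, deriv f 0, ⟨?_, ?_, ?_, ?_⟩, ?_⟩
  · exact (hd.sub_const _).div_const _
  · intro x hx y hy hxy
    have : f x - f 0 = f y - f 0 := by
      simpa [hne] using (div_left_inj' hne).1 hxy
    exact hi hx hy (sub_left_injective this)
  · simp
  · rw [hder 0 h0, div_self hne]
  · intro z hz
    rw [hder z hz, mul_div_cancel₀ _ hne]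

end Pool.Agent.H7.KR
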