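import Pool.Agent.H7.KR.Stm

set_option autoImplicit false

/-! # KR-PRG (helper1): the quadratic inequality in one degree -/

namespace Pool.Agent.H7.KR

open Metric Set Filter Topology MeasureTheory
open scoped ENNReal
open Pool.Agent.H64.CX (bt rr TP TN GD SN)

namespace PRG1

/-- one step of the tail sum -/
theorem step {σ : ℝ} (hσ : 0 < σ) {k : ℕ} (hk : 1 ≤ k) :
    ((k : ℝ) + 1) ^ (-σ) / ((k : ℝ) + 1) ≤ (1 / σ) * ((k : ℝ) ^ (-σ) - ((k : ℝ) + 1) ^ (-σ)) := by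
  have hk0 : (0 : ℝ) < k := by exact_mod_cast hk
  have hk1 : (0 : ℝ) < (k : ℝ) + 1 := by positivity
  have h1 : (k : ℝ) ^ (-σ) = ((k : ℝ) + 1) ^ (-σ) * Real.exp (σ * Real.log (((k : ℝ) + 1) / k)) := by
    rw [Real.rpow_def_of_pos hk0, Real.rpow_def_of_pos hk1, ← Real.exp_add,
      Real.log_div hk1.ne' hk0.ne']
    congr 1
    ring
  have h2 : 1 / ((k : ℝ) + 1) ≤ Real.log (((k : ℝ) + 1) / k) := by
    have h3 := Real.one_sub_inv_le_log_of_pos (div_pos hk1 hk0)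
    refine le_trans (le_of_eq ?_) h3
    rw [inv_div]
    field_simp
    ring
  have h3 : 1 + σ * (1 / ((k : ℝ) + 1)) ≤ Real.exp (σ * Real.log (((k : ℝ) + 1) / k)) := by
    have h4 := Real.add_one_le_exp (σ * Real.log (((k : ℝ) + 1) / k))
    have h5 := mul_le_mul_of_nonneg_left h2 hσ.le
    linarith
  have hp : 0 < ((k : ℝ) + 1) ^ (-σ) := by positivity
  rw [h1]
  have h6 : ((k : ℝ) + 1) ^ (-σ) * (σ * (1 / ((k : ℝ) + 1))) ≤
      ((k : ℝ) + 1) ^ (-σ) * Real.exp (σ * Real.log (((k : ℝ) + 1) / k)) -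
        ((k : ℝ) + 1) ^ (-σ) := by
    have := mul_le_mul_of_nonneg_left h3 hp.le
    linarith
  calc ((k : ℝ) + 1) ^ (-σ) / ((k : ℝ) + 1) =
        (1 / σ) * (((k : ℝ) + 1) ^ (-σ) * (σ * (1 / ((k : ℝ) + 1)))) := by
        field_simp
    _ ≤ _ := mul_le_mul_of_nonneg_left h6 (by positivity)

/-- the sum of the forced terms -/
theorem tsumb {σ : ℝ} (hσ : 0 < σ) (m n : ℕ) :
    ∑ k ∈ Finset.range n, ((m : ℝ) + k + 2) ^ (-σ) / ((k : ℝ) + 1) ≤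
      ((m : ℝ) + 1) ^ (-σ) * (1 + Real.log ((m : ℝ) + 1)) + 1 / σ * ((m : ℝ) + 1) ^ (-σ) := by
  have hm1 : (0 : ℝ) < (m : ℝ) + 1 := by positivity
  have hp : 0 < ((m : ℝ) + 1) ^ (-σ) := by positivity
  have hlog : 0 ≤ Real.log ((m : ℝ) + 1) := Real.log_nonneg (by
    linarith [(Nat.cast_nonneg m : (0 : ℝ) ≤ m)])
  have hnn : ∀ k : ℕ, 0 ≤ ((m : ℝ) + k + 2) ^ (-σ) / ((k : ℝ) + 1) := fun k => by positivity
  -- the beginning
  have hA : ∑ k ∈ Finset.range (m + 1), ((m : ℝ) + k + 2) ^ (-σ) / ((k : ℝ) + 1) ≤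
      ((m : ℝ) + 1) ^ (-σ) * (1 + Real.log ((m : ℝ) + 1)) := by
    have h1 : ∀ k ∈ Finset.range (m + 1), ((m : ℝ) + k + 2) ^ (-σ) / ((k : ℝ) + 1) ≤
        ((m : ℝ) + 1) ^ (-σ) * ((k : ℝ) + 1)⁻¹ := by
      intro k _
      rw [div_eq_mul_inv]
      refine mul_le_mul_of_nonneg_right ?_ (by positivity)
      apply Real.rpow_le_rpow_of_nonpos hm1 _ (by linarith)
      linarith [(Nat.cast_nonneg k : (0 : ℝ) ≤ k)]
    refine (Finset.sum_le_sum h1).trans ?_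
    rw [← Finset.mul_sum]
    refine mul_le_mul_of_nonneg_left ?_ hp.le
    have h2 := harmonic_le_one_add_log (m + 1)
    unfold harmonic at h2
    push_cast at h2
    exact h2
  rcases le_total n (m + 1) with h | h
  · have h1 : ∑ k ∈ Finset.range n, ((m : ℝ) + k + 2) ^ (-σ) / ((k : ℝ) + 1) ≤
        ∑ k ∈ Finset.range (m + 1), ((m : ℝ) + k + 2) ^ (-σ) / ((k : ℝ) + 1) :=
      Finset.sum_le_sum_of_subset_of_nonneg (Finset.range_subset_range.2 h) fun k _ _ => hnn k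
    have h2 : 0 ≤ 1 / σ * ((m : ℝ) + 1) ^ (-σ) := by positivity
    linarith
  · have key : ∀ n : ℕ, m + 1 ≤ n → ∑ k ∈ Finset.range n, ((m : ℝ) + k + 2) ^ (-σ) / ((k : ℝ) + 1) ≤
        ((m : ℝ) + 1) ^ (-σ) * (1 + Real.log ((m : ℝ) + 1)) +
          1 / σ * (((m : ℝ) + 1) ^ (-σ) - (n : ℝ) ^ (-σ)) := by
      intro n hn
      induction n, hn using Nat.le_induction with
      | base =>
        push_cast
        rw [sub_self, mul_zero, add_zero]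
        exact hA
      | succ n hn ih =>
        rw [Finset.sum_range_succ]
        have h1 := step hσ (k := n) (by omega)
        have h2 : ((m : ℝ) + n + 2) ^ (-σ) / ((n : ℝ) + 1) ≤ ((n : ℝ) + 1) ^ (-σ) / ((n : ℝ) + 1) := by
          refine div_le_div_of_nonneg_right ?_ (by positivity)
          apply Real.rpow_le_rpow_of_nonpos (by positivity) _ (by linarith)
          linarith [(Nat.cast_nonneg m : (0 : ℝ) ≤ m)]
        push_cast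
        linarith
    have h1 := key n h
    have h2 : 0 ≤ 1 / σ * (n : ℝ) ^ (-σ) := by positivity
    have h3 : 1 / σ * (((m : ℝ) + 1) ^ (-σ) - (n : ℝ) ^ (-σ)) =
      1 / σ * ((m : ℝ) + 1) ^ (-σ) - 1 / σ * (n : ℝ) ^ (-σ) := by ring
    linarith

theorem TP_mm (α : ℂ) (ν : ℕ → ℕ → ℂ) (m : ℕ) : TP α ν m m = ν 0 m := by
  unfold TP
  have h : Finset.Ico m (m + 1) = {m} := by
    ext x
    simp only [Finset.mem_Ico, Finset.mem_singleton]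
    omega
  rw [h, Finset.sum_singleton, Nat.sub_self]
  simp [bt]

theorem sq_split {η : ℝ} (hη : 0 < η) (G Y : ℝ) :
    (G + Y) ^ 2 ≤ (1 + η) * G ^ 2 + (1 + 1 / η) * Y ^ 2 := by
  have h1 : 0 ≤ (η * G - Y) ^ 2 / η := by positivity
  have h2 : (η * G - Y) ^ 2 / η = η * G ^ 2 - 2 * (G * Y) + 1 / η * Y ^ 2 := by
    field_simp
    ring
  rw [h2] at h1
  nlinarith

/-- one index -/
theorem one_k (hIDN : Pool.Agent.H64.CX.S_IDN) {s σ η c Cu : ℝ} (hs0 : 0 < s) (hs : s ≤ 1 / 2)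
    (hη : 0 < η) (hc : 0 < c) (hCu0 : 0 ≤ Cu)
    (hR : ∀ m k : ℕ, 1 ≤ m → 1 ≤ k →
      c * m * ((m : ℝ) + k) ^ s ≤ ‖rr (-(s : ℂ)) (m + k) - rr (-(s : ℂ)) k‖)
    (hU : ∀ n : ℕ, 1 ≤ n → ‖bt (1 - -(s : ℂ)) n‖ ^ 2 ≤ Cu * (n : ℝ) ^ (2 * s))
    (ν : ℕ → ℕ → ℂ) (hν : ∀ a b, ν a b = ν b a) (m k : ℕ) (hm : 1 ≤ m) (hk : 1 ≤ k) :
    (k : ℝ) * ((m : ℝ) + k + 1) ^ (-(σ - 2 * s)) * ‖TN (-(s : ℂ)) ν k m‖ ^ 2 ≤
      (1 + η) * (SN (-(s : ℂ)) (σ - 2 * s) m k * PG s (σ - 2 * s) ν m) +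
      (1 + 1 / η) * (18 * Cu / c ^ 2 * (m : ℝ) ^ (2 * s) * ‖ν 0 m‖ ^ 2 *
        (((m : ℝ) + k + 1) ^ (-σ) / k)) := by
  obtain ⟨α, hα⟩ : ∃ α : ℂ, α = -(s : ℂ) := ⟨_, rfl⟩
  obtain ⟨μ, hμ⟩ : ∃ μ : ℝ, μ = σ - 2 * s := ⟨_, rfl⟩
  have hα0 : α ≠ 0 := by
    rw [hα, neg_ne_zero]
    exact_mod_cast hs0.ne'
  have hαre : α.re = -s := by rw [hα]; simp
  have hmR : (1 : ℝ) ≤ m := by exact_mod_cast hm
  have hkR : (1 : ℝ) ≤ k := by exact_mod_cast hk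
  have hm0 : (0 : ℝ) < m := by linarith
  have hk0 : (0 : ℝ) < k := by linarith
  have hR' := hR m k hm hk
  have hU' := hU m hm
  rw [← hα] at hR' hU' ⊢
  rw [← hμ]
  have hDlow : 0 < c * m * ((m : ℝ) + k) ^ s := by positivity
  have hD : 0 < ‖rr α (m + k) - rr α k‖ := lt_of_lt_of_le hDlow hR'
  have h1 := hIDN α ν hν hα0 (by rw [hαre]; linarith) m k hk
  -- splitting off `n = m`
  have hIcc : Finset.Icc 1 m = insert m (Finset.Ico 1 m) := by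
    ext x
    simp only [Finset.mem_Icc, Finset.mem_insert, Finset.mem_Ico]
    omega
  rw [hIcc, Finset.sum_insert (by simp), TP_mm] at h1
  obtain ⟨Ga, hGa⟩ : ∃ Ga : ℝ, Ga = ∑ n ∈ Finset.Ico 1 m, (n : ℝ) * ‖bt (1 - α) n‖ *
      ‖TP α ν n m‖ * ‖1 / ((n : ℂ) + k) + 1 / ((m : ℂ) + k - n + α)‖ := ⟨_, rfl⟩
  obtain ⟨Ya, hYa⟩ : ∃ Ya : ℝ, Ya = (m : ℝ) * ‖bt (1 - α) m‖ * ‖ν 0 m‖ *
      ‖1 / ((m : ℂ) + k) + 1 / ((m : ℂ) + k - m + α)‖ := ⟨_, rfl⟩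
  have hGa0 : 0 ≤ Ga := by
    rw [hGa]
    exact Finset.sum_nonneg fun n _ => by positivity
  have hYa0 : 0 ≤ Ya := by rw [hYa]; positivity
  have h2 : ‖TN α ν k m‖ * ‖rr α (m + k) - rr α k‖ ≤ Ga + Ya := by
    rw [← norm_mul, h1, add_comm Ga]
    refine (norm_add_le _ _).trans (add_le_add (le_of_eq ?_) ?_)
    · rw [hYa, norm_mul, norm_mul, norm_mul, Complex.norm_natCast]
    · rw [hGa]
      refine (norm_sum_le _ _).trans (le_of_eq (Finset.sum_congr rfl fun n _ => ?_))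
      rw [norm_mul, norm_mul, norm_mul, Complex.norm_natCast]
  -- Cauchy's inequality
  have hterm0 : ∀ n ∈ Finset.Icc 1 m, 0 ≤ (n : ℝ) * ‖bt (1 - α) n‖ ^ 2 *
      ((m : ℝ) - n + 1) ^ μ * ‖1 / ((n : ℂ) + k) + 1 / ((m : ℂ) + k - n + α)‖ ^ 2 := by
    intro n hn
    rw [Finset.mem_Icc] at hn
    have hn2 : (n : ℝ) ≤ m := by exact_mod_cast hn.2
    have : 0 ≤ ((m : ℝ) - n + 1) ^ μ := Real.rpow_nonneg (by linarith) _
    positivity
  have h3 : Ga ^ 2 ≤ (∑ n ∈ Finset.Icc 1 m, (n : ℝ) * ‖bt (1 - α) n‖ ^ 2 *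
      ((m : ℝ) - n + 1) ^ μ * ‖1 / ((n : ℂ) + k) + 1 / ((m : ℂ) + k - n + α)‖ ^ 2) *
      PG s μ ν m := by
    have hcs : Ga ^ 2 ≤ (∑ n ∈ Finset.Ico 1 m, (n : ℝ) * ‖bt (1 - α) n‖ ^ 2 *
        ((m : ℝ) - n + 1) ^ μ * ‖1 / ((n : ℂ) + k) + 1 / ((m : ℂ) + k - n + α)‖ ^ 2) *
        ∑ n ∈ Finset.Ico 1 m, (n : ℝ) * ((m : ℝ) - n + 1) ^ (-μ) * ‖TP α ν n m‖ ^ 2 := by
      rw [hGa]
      apply Finset.sum_sq_le_sum_mul_sum_of_sq_eq_mul
      · intro n hn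
        rw [Finset.mem_Ico] at hn
        exact hterm0 n (Finset.mem_Icc.2 ⟨hn.1, hn.2.le⟩)
      · intro n hn
        rw [Finset.mem_Ico] at hn
        have hn2 : (n : ℝ) ≤ m := by exact_mod_cast hn.2.le
        have : 0 ≤ ((m : ℝ) - n + 1) ^ (-μ) := Real.rpow_nonneg (by linarith) _
        positivity
      · intro n hn
        rw [Finset.mem_Ico] at hn
        have hn2 : (n : ℝ) ≤ m := by exact_mod_cast hn.2.le
        have h4 : ((m : ℝ) - n + 1) ^ μ * ((m : ℝ) - n + 1) ^ (-μ) = 1 := by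
          rw [← Real.rpow_add (by linarith), add_neg_cancel, Real.rpow_zero]
        calc ((n : ℝ) * ‖bt (1 - α) n‖ * ‖TP α ν n m‖ *
              ‖1 / ((n : ℂ) + k) + 1 / ((m : ℂ) + k - n + α)‖) ^ 2
            = (n : ℝ) ^ 2 * ‖bt (1 - α) n‖ ^ 2 * ‖TP α ν n m‖ ^ 2 *
              ‖1 / ((n : ℂ) + k) + 1 / ((m : ℂ) + k - n + α)‖ ^ 2 *
              (((m : ℝ) - n + 1) ^ μ * ((m : ℝ) - n + 1) ^ (-μ)) := by rw [h4]; ring
          _ = _ := by ring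
    refine hcs.trans (mul_le_mul ?_ ?_ ?_ ?_)
    · refine Finset.sum_le_sum_of_subset_of_nonneg (fun n hn => ?_) fun n hn _ => hterm0 n hn
      rw [Finset.mem_Ico] at hn
      exact Finset.mem_Icc.2 ⟨hn.1, hn.2.le⟩
    · have h4 : ∑ n ∈ Finset.Ico 1 m, (n : ℝ) * ((m : ℝ) - n + 1) ^ (-μ) * ‖TP α ν n m‖ ^ 2 =
          ∑ n ∈ Finset.Ico 1 m, (n : ℝ) * wt μ (m - n) * ‖TP α ν n m‖ ^ 2 := by
        refine Finset.sum_congr rfl fun n hn => ?_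
        rw [Finset.mem_Ico] at hn
        unfold wt
        rw [Nat.cast_sub hn.2.le]
      rw [h4]
      unfold PG
      rw [← hα]
      refine Finset.sum_le_sum_of_subset_of_nonneg (fun n hn => ?_) fun n _ _ => ?_
      · rw [Finset.mem_Ico] at hn
        exact Finset.mem_range.2 hn.2
      · unfold wt
        positivity
    · refine Finset.sum_nonneg fun n hn => ?_
      rw [Finset.mem_Ico] at hn
      have hn2 : (n : ℝ) ≤ m := by exact_mod_cast hn.2.le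
      have : 0 ≤ ((m : ℝ) - n + 1) ^ (-μ) := Real.rpow_nonneg (by linarith) _
      positivity
    · exact Finset.sum_nonneg hterm0
  -- the forced term
  have hK : ‖1 / ((m : ℂ) + k) + 1 / ((m : ℂ) + k - m + α)‖ ≤ 3 / k := by
    refine (norm_add_le _ _).trans ?_
    have e1 : ‖1 / ((m : ℂ) + k)‖ ≤ 1 / k := by
      rw [norm_div, norm_one, show (m : ℂ) + k = ((m + k : ℕ) : ℂ) by push_cast; rfl,
        Complex.norm_natCast]
      refine one_div_le_one_div_of_le hk0 ?_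
      push_cast
      linarith
    have e2 : ‖1 / ((m : ℂ) + k - m + α)‖ ≤ 2 / k := by
      rw [show (m : ℂ) + k - m + α = ((k - s : ℝ) : ℂ) by rw [hα]; push_cast; ring, norm_div,
        norm_one, Complex.norm_real, Real.norm_eq_abs, abs_of_pos (by linarith),
        div_le_div_iff₀ (by linarith) hk0]
      linarith
    calc _ ≤ 1 / (k : ℝ) + 2 / k := add_le_add e1 e2
      _ = 3 / k := by ring
  have hY2 : Ya ^ 2 ≤ (m : ℝ) ^ 2 * (Cu * (m : ℝ) ^ (2 * s)) * ‖ν 0 m‖ ^ 2 * (3 / k) ^ 2 := by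
    rw [hYa, mul_pow, mul_pow, mul_pow]
    have e1 : ‖1 / ((m : ℂ) + k) + 1 / ((m : ℂ) + k - m + α)‖ ^ 2 ≤ (3 / (k : ℝ)) ^ 2 :=
      pow_le_pow_left₀ (norm_nonneg _) hK 2
    gcongr
  have hR2 : (c * m * ((m : ℝ) + k) ^ s) ^ 2 ≤ ‖rr α (m + k) - rr α k‖ ^ 2 :=
    pow_le_pow_left₀ hDlow.le hR' 2
  have hmk0 : (0 : ℝ) < (m : ℝ) + k := by linarith
  have hmk1 : (0 : ℝ) < (m : ℝ) + k + 1 := by linarith
  have hYR : (k : ℝ) * ((m : ℝ) + k + 1) ^ (-μ) * (Ya ^ 2 / ‖rr α (m + k) - rr α k‖ ^ 2) ≤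
      18 * Cu / c ^ 2 * (m : ℝ) ^ (2 * s) * ‖ν 0 m‖ ^ 2 * (((m : ℝ) + k + 1) ^ (-σ) / k) := by
    have e1 : Ya ^ 2 / ‖rr α (m + k) - rr α k‖ ^ 2 ≤
        ((m : ℝ) ^ 2 * (Cu * (m : ℝ) ^ (2 * s)) * ‖ν 0 m‖ ^ 2 * (3 / k) ^ 2) /
          (c * m * ((m : ℝ) + k) ^ s) ^ 2 := by
      have : 0 < (c * m * ((m : ℝ) + k) ^ s) ^ 2 := by positivity
      gcongr
    have e2 : (((m : ℝ) + k) ^ s) ^ 2 = ((m : ℝ) + k) ^ (2 * s) := by
      rw [← Real.rpow_natCast, ← Real.rpow_mul hmk0.le]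
      congr 1
      push_cast
      ring
    have e3 : ((m : ℝ) + k + 1) ^ (-μ) = ((m : ℝ) + k + 1) ^ (-σ) * ((m : ℝ) + k + 1) ^ (2 * s) := by
      rw [← Real.rpow_add hmk1, hμ]
      congr 1
      ring
    have e4 : ((m : ℝ) + k + 1) ^ (2 * s) ≤ 2 * ((m : ℝ) + k) ^ (2 * s) := by
      calc ((m : ℝ) + k + 1) ^ (2 * s) ≤ (2 * ((m : ℝ) + k)) ^ (2 * s) :=
            Real.rpow_le_rpow hmk1.le (by linarith) (by linarith)
        _ = 2 ^ (2 * s) * ((m : ℝ) + k) ^ (2 * s) := Real.mul_rpow (by norm_num) hmk0.le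
        _ ≤ 2 ^ (1 : ℝ) * ((m : ℝ) + k) ^ (2 * s) := by
            refine mul_le_mul_of_nonneg_right ?_ (by positivity)
            exact Real.rpow_le_rpow_of_exponent_le (by norm_num) (by linarith)
        _ = 2 * ((m : ℝ) + k) ^ (2 * s) := by rw [Real.rpow_one]
    obtain ⟨X, hX⟩ : ∃ X : ℝ, X = ((m : ℝ) + k) ^ (2 * s) := ⟨_, rfl⟩
    have hX0 : 0 < X := by rw [hX]; positivity
    obtain ⟨W, hW⟩ : ∃ W : ℝ, W = ((m : ℝ) + k + 1) ^ (-σ) := ⟨_, rfl⟩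
    have hW0 : 0 < W := by rw [hW]; positivity
    obtain ⟨Z, hZ⟩ : ∃ Z : ℝ, Z = ((m : ℝ) + k + 1) ^ (2 * s) := ⟨_, rfl⟩
    have hZ0 : 0 < Z := by rw [hZ]; positivity
    rw [← hX, ← hZ] at e4
    calc (k : ℝ) * ((m : ℝ) + k + 1) ^ (-μ) * (Ya ^ 2 / ‖rr α (m + k) - rr α k‖ ^ 2)
        ≤ (k : ℝ) * ((m : ℝ) + k + 1) ^ (-μ) *
          (((m : ℝ) ^ 2 * (Cu * (m : ℝ) ^ (2 * s)) * ‖ν 0 m‖ ^ 2 * (3 / k) ^ 2) /
          (c * m * ((m : ℝ) + k) ^ s) ^ 2) :=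
          mul_le_mul_of_nonneg_left e1 (by positivity)
      _ = 9 * Cu / c ^ 2 * (m : ℝ) ^ (2 * s) * ‖ν 0 m‖ ^ 2 * (W / k) * (Z / X) := by
          rw [mul_pow, mul_pow, e2, e3, ← hX, ← hW, ← hZ]
          field_simp
          ring
      _ ≤ 9 * Cu / c ^ 2 * (m : ℝ) ^ (2 * s) * ‖ν 0 m‖ ^ 2 * (W / k) * 2 := by
          refine mul_le_mul_of_nonneg_left ?_ (by positivity)
          rw [div_le_iff₀ hX0]
          exact e4
      _ = _ := by rw [hW]; ring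
  -- together
  have h5 : ‖TN α ν k m‖ ^ 2 ≤ ((1 + η) * Ga ^ 2 + (1 + 1 / η) * Ya ^ 2) /
      ‖rr α (m + k) - rr α k‖ ^ 2 := by
    rw [le_div_iff₀ (by positivity), ← mul_pow]
    exact (pow_le_pow_left₀ (by positivity) h2 2).trans (sq_split hη Ga Ya)
  have h7 : 0 ≤ (k : ℝ) * ((m : ℝ) + k + 1) ^ (-μ) := by positivity
  calc (k : ℝ) * ((m : ℝ) + k + 1) ^ (-μ) * ‖TN α ν k m‖ ^ 2
      ≤ (k : ℝ) * ((m : ℝ) + k + 1) ^ (-μ) * (((1 + η) * Ga ^ 2 + (1 + 1 / η) * Ya ^ 2) /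
        ‖rr α (m + k) - rr α k‖ ^ 2) := mul_le_mul_of_nonneg_left h5 h7
    _ = (1 + η) * ((k : ℝ) * ((m : ℝ) + k + 1) ^ (-μ) / ‖rr α (m + k) - rr α k‖ ^ 2 * Ga ^ 2) +
        (1 + 1 / η) * ((k : ℝ) * ((m : ℝ) + k + 1) ^ (-μ) *
          (Ya ^ 2 / ‖rr α (m + k) - rr α k‖ ^ 2)) := by ring
    _ ≤ _ := by
        refine add_le_add (mul_le_mul_of_nonneg_left ?_ (by linarith))
          (mul_le_mul_of_nonneg_left hYR (by positivity))
        unfold SN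
        refine (mul_le_mul_of_nonneg_left h3 (by positivity)).trans (le_of_eq ?_)
        ring

end PRG1

open PRG1

theorem prg : S_PRG := by
  intro hIDN hRN hUN s σ hs0 hs hσ hex
  obtain ⟨δ, M₀, hδ0, hδ1, hSN⟩ := hex
  have hre : (-(s : ℂ)).re = -s := by simp
  have him : (-(s : ℂ)).im = 0 := by simp
  have hne : (-(s : ℂ)) ≠ 0 := by
    rw [neg_ne_zero]
    exact_mod_cast hs0.ne'
  obtain ⟨_, c, hc, hR⟩ := hRN (-(s : ℂ)) hne (by rw [hre]; linarith) (by rw [hre]; linarith)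
    (by rw [him]; norm_num)
  obtain ⟨⟨Cu, hCu0, hU⟩, _⟩ := hUN (-(s : ℂ)) (by rw [hre]; linarith) (by rw [hre]; linarith)
  rw [hre] at hR hU
  simp only [neg_neg, mul_neg] at hR hU
  obtain ⟨η, hη⟩ : ∃ η : ℝ, η = δ / 2 := ⟨_, rfl⟩
  have hη0 : 0 < η := by rw [hη]; positivity
  obtain ⟨μ, hμ⟩ : ∃ μ : ℝ, μ = σ - 2 * s := ⟨_, rfl⟩
  refine ⟨δ / 2, (1 + 1 / η) * (18 * Cu / c ^ 2) * (1 + 1 / σ), max M₀ 1, by positivity,
    by positivity, ?_⟩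
  intro ν hν m hm
  have hm1 : 1 ≤ m := (le_max_right _ _).trans hm
  have hmM : M₀ ≤ m := (le_max_left _ _).trans hm
  have hmp : (0 : ℝ) < (m : ℝ) + 1 := by positivity
  have hSNm := hSN m hmM
  have hPG0 : 0 ≤ PG s (σ - 2 * s) ν m := by
    unfold PG wt
    exact Finset.sum_nonneg fun n _ => by positivity
  have hSN0 : ∀ k : ℕ, 0 ≤ SN (-(s : ℂ)) (σ - 2 * s) m (k + 1) := by
    intro k
    unfold SN
    refine mul_nonneg (by positivity) (Finset.sum_nonneg fun n hn => ?_)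
    rw [Finset.mem_Icc] at hn
    have hn2 : (n : ℝ) ≤ m := by exact_mod_cast hn.2
    have : 0 ≤ ((m : ℝ) - n + 1) ^ (σ - 2 * s) := Real.rpow_nonneg (by linarith) _
    positivity
  obtain ⟨P, hP⟩ : ∃ P : ℝ, P = (1 + 1 / η) * (18 * Cu / c ^ 2 * (m : ℝ) ^ (2 * s) *
      ‖ν 0 m‖ ^ 2) := ⟨_, rfl⟩
  have hP0 : 0 ≤ P := by rw [hP]; positivity
  have hterm : ∀ k : ℕ, ((k : ℝ) + 1 - s) * wt (σ - 2 * s) (m + k + 1) *
      ‖TN (-(s : ℂ)) ν (k + 1) m‖ ^ 2 ≤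
      (1 + η) * PG s (σ - 2 * s) ν m * SN (-(s : ℂ)) (σ - 2 * s) m (k + 1) +
        P * (((m : ℝ) + k + 2) ^ (-σ) / ((k : ℝ) + 1)) := by
    intro k
    have h1 := one_k hIDN hs0 hs hη0 hc hCu0 hR hU ν hν m (k + 1) hm1 (by omega) (σ := σ)
    have h2 : wt (σ - 2 * s) (m + k + 1) = ((m : ℝ) + ((k + 1 : ℕ) : ℝ) + 1) ^ (-(σ - 2 * s)) := by
      unfold wt
      congr 1
      push_cast
      ring
    have h3 : ((m : ℝ) + ((k + 1 : ℕ) : ℝ) + 1) ^ (-σ) / ((k + 1 : ℕ) : ℝ) =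
        ((m : ℝ) + k + 2) ^ (-σ) / ((k : ℝ) + 1) := by
      congr 2
      · push_cast; ring
      · push_cast; ring
    rw [h3] at h1
    rw [h2]
    have h4 : 0 ≤ ((m : ℝ) + ((k + 1 : ℕ) : ℝ) + 1) ^ (-(σ - 2 * s)) := by positivity
    calc ((k : ℝ) + 1 - s) * ((m : ℝ) + ((k + 1 : ℕ) : ℝ) + 1) ^ (-(σ - 2 * s)) *
          ‖TN (-(s : ℂ)) ν (k + 1) m‖ ^ 2 ≤
          ((k + 1 : ℕ) : ℝ) * ((m : ℝ) + ((k + 1 : ℕ) : ℝ) + 1) ^ (-(σ - 2 * s)) *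
          ‖TN (-(s : ℂ)) ν (k + 1) m‖ ^ 2 := by
          refine mul_le_mul_of_nonneg_right (mul_le_mul_of_nonneg_right ?_ h4) (sq_nonneg _)
          push_cast
          linarith
      _ ≤ _ := h1
      _ = _ := by rw [hP]; ring
  have hRG : RG s (σ - 2 * s) ν m ≤ ENNReal.ofReal ((1 + η) * PG s (σ - 2 * s) ν m * (1 - δ) +
      P * (((m : ℝ) + 1) ^ (-σ) * (1 + Real.log ((m : ℝ) + 1)) +
        1 / σ * ((m : ℝ) + 1) ^ (-σ))) := by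
    have hlog : 0 ≤ Real.log ((m : ℝ) + 1) := Real.log_nonneg (by
      linarith [(Nat.cast_nonneg m : (0 : ℝ) ≤ m)])
    unfold RG
    calc ∑' k : ℕ, ENNReal.ofReal (((k : ℝ) + 1 - s) * wt (σ - 2 * s) (m + k + 1) *
          ‖TN (-(s : ℂ)) ν (k + 1) m‖ ^ 2)
        ≤ ∑' k : ℕ, (ENNReal.ofReal ((1 + η) * PG s (σ - 2 * s) ν m) *
          ENNReal.ofReal (SN (-(s : ℂ)) (σ - 2 * s) m (k + 1)) +
          ENNReal.ofReal (P * (((m : ℝ) + k + 2) ^ (-σ) / ((k : ℝ) + 1)))) := by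
          refine ENNReal.tsum_le_tsum fun k => ?_
          rw [← ENNReal.ofReal_mul (by positivity),
            ← ENNReal.ofReal_add (mul_nonneg (by positivity) (hSN0 k)) (by positivity)]
          exact ENNReal.ofReal_le_ofReal (hterm k)
      _ = ENNReal.ofReal ((1 + η) * PG s (σ - 2 * s) ν m) *
          ∑' k : ℕ, ENNReal.ofReal (SN (-(s : ℂ)) (σ - 2 * s) m (k + 1)) +
          ∑' k : ℕ, ENNReal.ofReal (P * (((m : ℝ) + k + 2) ^ (-σ) / ((k : ℝ) + 1))) := by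
          rw [ENNReal.tsum_add, ENNReal.tsum_mul_left]
      _ ≤ ENNReal.ofReal ((1 + η) * PG s (σ - 2 * s) ν m) * ENNReal.ofReal (1 - δ) +
          ENNReal.ofReal (P * (((m : ℝ) + 1) ^ (-σ) * (1 + Real.log ((m : ℝ) + 1)) +
            1 / σ * ((m : ℝ) + 1) ^ (-σ))) := by
          refine add_le_add (mul_le_mul' le_rfl hSNm) ?_
          refine ENNReal.tsum_le_of_sum_range_le fun n => ?_
          rw [← ENNReal.ofReal_sum_of_nonneg fun k _ => by positivity]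
          refine ENNReal.ofReal_le_ofReal ?_
          rw [← Finset.mul_sum]
          exact mul_le_mul_of_nonneg_left (tsumb hσ m n) hP0
      _ = _ := by
          rw [← ENNReal.ofReal_mul (by positivity), ← ENNReal.ofReal_add
            (mul_nonneg (by positivity) (by linarith)) (by positivity)]
  have hLG : PG s (σ - 2 * s) ν m ≤ LG s (σ - 2 * s) ν m := by
    unfold PG LG
    refine Finset.sum_le_sum fun n _ => ?_
    have hw : 0 ≤ wt (σ - 2 * s) (m - n) := by unfold wt; positivity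
    refine mul_le_mul_of_nonneg_right (mul_le_mul_of_nonneg_right (by linarith) hw) (sq_nonneg _)
  have hlog : 0 ≤ Real.log ((m : ℝ) + 1) := Real.log_nonneg (by
    linarith [(Nat.cast_nonneg m : (0 : ℝ) ≤ m)])
  refine (add_le_add hRG le_rfl).trans ?_
  rw [← ENNReal.ofReal_add ?_ (by positivity)]
  swap
  · refine add_nonneg (mul_nonneg (by positivity) (by linarith)) (by positivity)
  refine ENNReal.ofReal_le_ofReal ?_
  have f1 : (1 + η) * PG s (σ - 2 * s) ν m * (1 - δ) + δ / 2 * PG s (σ - 2 * s) ν m ≤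
      PG s (σ - 2 * s) ν m := by
    rw [hη]
    nlinarith [mul_nonneg (mul_nonneg hδ0.le hδ0.le) hPG0]
  have f2 : P * (((m : ℝ) + 1) ^ (-σ) * (1 + Real.log ((m : ℝ) + 1)) +
      1 / σ * ((m : ℝ) + 1) ^ (-σ)) ≤
      (1 + 1 / η) * (18 * Cu / c ^ 2) * (1 + 1 / σ) *
        (((m : ℝ) + 1) ^ (2 * s - σ) * (1 + Real.log ((m : ℝ) + 1)) * ‖ν 0 m‖ ^ 2) := by
    have g1 : (m : ℝ) ^ (2 * s) ≤ ((m : ℝ) + 1) ^ (2 * s) :=
      Real.rpow_le_rpow (Nat.cast_nonneg m) (by linarith) (by linarith)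
    have g2 : ((m : ℝ) + 1) ^ (2 * s - σ) = ((m : ℝ) + 1) ^ (2 * s) * ((m : ℝ) + 1) ^ (-σ) := by
      rw [← Real.rpow_add hmp]
      congr 1
    have g3 : ((m : ℝ) + 1) ^ (-σ) * (1 + Real.log ((m : ℝ) + 1)) +
        1 / σ * ((m : ℝ) + 1) ^ (-σ) ≤
        (1 + 1 / σ) * (((m : ℝ) + 1) ^ (-σ) * (1 + Real.log ((m : ℝ) + 1))) := by
      have g4 : 0 ≤ 1 / σ * ((m : ℝ) + 1) ^ (-σ) * Real.log ((m : ℝ) + 1) := by positivity
      linarith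
    calc P * (((m : ℝ) + 1) ^ (-σ) * (1 + Real.log ((m : ℝ) + 1)) +
          1 / σ * ((m : ℝ) + 1) ^ (-σ))
        ≤ P * ((1 + 1 / σ) * (((m : ℝ) + 1) ^ (-σ) * (1 + Real.log ((m : ℝ) + 1)))) :=
          mul_le_mul_of_nonneg_left g3 hP0
      _ ≤ ((1 + 1 / η) * (18 * Cu / c ^ 2 * ((m : ℝ) + 1) ^ (2 * s) * ‖ν 0 m‖ ^ 2)) *
          ((1 + 1 / σ) * (((m : ℝ) + 1) ^ (-σ) * (1 + Real.log ((m : ℝ) + 1)))) := by
          rw [hP]
          gcongr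
      _ = _ := by rw [g2]; ring
  linarith

end Pool.Agent.H7.KR
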