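import Pool.Agent.H7.KR.Stm

set_option autoImplicit false

/-! # KR-SUMG (helper29): convergence for `ρ < 1` -/

namespace Pool.Agent.H7.KR

open Metric Set Filter Topology MeasureTheory
open scoped ENNReal
open Pool.Agent.H64.CX (bt rr TP TN GD)

namespace SUMGx

theorem bt_le {t : ℝ} (ht0 : 0 < t) (ht : t ≤ 1 / 2) (j : ℕ) : ‖bt (-(t : ℂ)) j‖ ≤ 1 := by
  unfold bt
  rw [norm_prod]
  refine Finset.prod_le_one (fun i _ => norm_nonneg _) fun i _ => ?_
  have hi : (0 : ℝ) ≤ i := Nat.cast_nonneg i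
  have e : (-(t : ℂ) + (i : ℂ)) / ((i : ℂ) + 1) = ((((i : ℝ) - t) / ((i : ℝ) + 1) : ℝ) : ℂ) := by
    push_cast
    ring
  rw [e, Complex.norm_real, Real.norm_eq_abs, abs_le]
  constructor
  · rw [le_div_iff₀ (by linarith)]
    linarith
  · rw [div_le_one (by linarith)]
    linarith

end SUMGx

theorem sumg : S_SUMG := by
  intro t μ ν ht0 ht hν ρ hρ
  obtain ⟨q, hq⟩ : ∃ q : ℝ, q = √ρ := ⟨_, rfl⟩
  obtain ⟨s, hs⟩ : ∃ s : ℝ, s = √q := ⟨_, rfl⟩
  obtain ⟨k, hk⟩ : ∃ k : ℕ, |μ| ≤ k := exists_nat_ge _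
  have hq0 : 0 < q := by rw [hq]; exact Real.sqrt_pos.2 hρ.1
  have hq1 : q < 1 := by rw [hq, Real.sqrt_lt' one_pos, one_pow]; exact hρ.2
  have hs0 : 0 < s := by rw [hs]; exact Real.sqrt_pos.2 hq0
  have hs1 : s < 1 := by rw [hs, Real.sqrt_lt' one_pos, one_pow]; exact hq1
  have hqq : ρ = q * q := by rw [hq, Real.mul_self_sqrt hρ.1.le]
  have hss : q = s * s := by rw [hs, Real.mul_self_sqrt hq0.le]
  obtain ⟨C, hC⟩ := hν s ⟨hs0, hs1⟩
  have hC0 : 0 ≤ C := le_trans (by positivity) (hC 0 0)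
  have hTP : ∀ n m : ℕ, ‖TP (-(t : ℂ)) ν n m‖ ≤ ((m : ℝ) + 1) * C / s ^ m := by
    intro n m
    have hsm : 0 < s ^ m := pow_pos hs0 m
    have h2 : ∀ b ∈ Finset.Ico n (m + 1),
        ‖ν (m - b) b * bt (-(t : ℂ)) (b - n)‖ ≤ C / s ^ m := by
      intro b hb
      rw [Finset.mem_Ico] at hb
      have h3 := hC (m - b) b
      have h4 : m - b + b = m := by omega
      rw [h4] at h3
      rw [norm_mul]
      have h5 : ‖ν (m - b) b‖ ≤ C / s ^ m := by rwa [le_div_iff₀ hsm]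
      calc ‖ν (m - b) b‖ * ‖bt (-(t : ℂ)) (b - n)‖ ≤ C / s ^ m * 1 :=
            mul_le_mul h5 (SUMGx.bt_le ht0 ht _) (norm_nonneg _) (by positivity)
        _ = C / s ^ m := by ring
    calc ‖TP (-(t : ℂ)) ν n m‖ ≤
          ∑ b ∈ Finset.Ico n (m + 1), ‖ν (m - b) b * bt (-(t : ℂ)) (b - n)‖ := by
          unfold TP
          exact norm_sum_le _ _
      _ ≤ ∑ _b ∈ Finset.Ico n (m + 1), C / s ^ m := Finset.sum_le_sum h2
      _ = ((m + 1 - n : ℕ) : ℝ) * (C / s ^ m) := by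
          rw [Finset.sum_const, Nat.card_Ico, nsmul_eq_mul]
      _ ≤ ((m : ℝ) + 1) * (C / s ^ m) := by
          refine mul_le_mul_of_nonneg_right ?_ (by positivity)
          have : m + 1 - n ≤ m + 1 := Nat.sub_le _ _
          exact_mod_cast this
      _ = _ := by ring
  have hw0 : ∀ j, 0 ≤ wt μ j := fun j => by unfold wt; positivity
  have hw1 : ∀ j m : ℕ, j ≤ m → wt μ j ≤ ((m : ℝ) + 1) ^ k := by
    intro j m hj
    have hj' : (j : ℝ) ≤ m := by exact_mod_cast hj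
    have hj0 : (0 : ℝ) ≤ j := Nat.cast_nonneg j
    unfold wt
    calc ((j : ℝ) + 1) ^ (-μ) ≤ ((j : ℝ) + 1) ^ ((k : ℕ) : ℝ) :=
          Real.rpow_le_rpow_of_exponent_le (by linarith) ((neg_le_abs μ).trans hk)
      _ = ((j : ℝ) + 1) ^ k := Real.rpow_natCast _ _
      _ ≤ _ := pow_le_pow_left₀ (by linarith) (by linarith) k
  have hLL0 : ∀ m, 0 ≤ LG t μ ν m := by
    intro m
    unfold LG
    refine Finset.sum_nonneg fun n _ => ?_
    have := hw0 (m - n)
    positivity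
  have hLL : ∀ m, LG t μ ν m ≤ ((m : ℝ) + 1) ^ (k + 4) * C ^ 2 / q ^ m := by
    intro m
    have hqm : q ^ m = s ^ m * s ^ m := by rw [hss, mul_pow]
    have hsm : 0 < s ^ m := pow_pos hs0 m
    calc LG t μ ν m ≤ ∑ _n ∈ Finset.range m,
          (((m : ℝ) + 1) * ((m : ℝ) + 1) ^ k) * (((m : ℝ) + 1) * C / s ^ m) ^ 2 := by
          unfold LG
          refine Finset.sum_le_sum fun n hn => ?_
          rw [Finset.mem_range] at hn
          have h2 : (n : ℝ) + t ≤ (m : ℝ) + 1 := by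
            have : (n : ℝ) < m := by exact_mod_cast hn
            linarith
          have h5 : ((n : ℝ) + t) * wt μ (m - n) ≤ ((m : ℝ) + 1) * ((m : ℝ) + 1) ^ k :=
            mul_le_mul h2 (hw1 _ _ (Nat.sub_le _ _)) (hw0 _) (by positivity)
          exact mul_le_mul h5 (pow_le_pow_left₀ (norm_nonneg _) (hTP n m) 2) (sq_nonneg _)
            (by positivity)
      _ = (m : ℝ) * ((((m : ℝ) + 1) * ((m : ℝ) + 1) ^ k) * (((m : ℝ) + 1) * C / s ^ m) ^ 2) := by
          rw [Finset.sum_const, Finset.card_range, nsmul_eq_mul]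
      _ ≤ ((m : ℝ) + 1) *
          ((((m : ℝ) + 1) * ((m : ℝ) + 1) ^ k) * (((m : ℝ) + 1) * C / s ^ m) ^ 2) :=
          mul_le_mul_of_nonneg_right (by linarith) (by positivity)
      _ = _ := by
          rw [hqm]
          field_simp
          ring
  have hsum : Summable fun m : ℕ => C ^ 2 / q * (((m : ℝ) + 1) ^ (k + 4) * q ^ (m + 1)) := by
    apply Summable.mul_left
    have h2 := summable_pow_mul_geometric_of_norm_lt_one (R := ℝ) (k + 4) (r := q)
      (by rw [Real.norm_eq_abs, abs_of_pos hq0]; exact hq1)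
    have h3 := (summable_nat_add_iff 1).2 h2
    refine h3.congr fun m => ?_
    push_cast
    rfl
  refine Summable.of_nonneg_of_le (fun m => mul_nonneg (pow_nonneg hρ.1.le m) (hLL0 m))
    (fun m => ?_) hsum
  have hqm : 0 < q ^ m := pow_pos hq0 m
  calc ρ ^ m * LG t μ ν m ≤ ρ ^ m * (((m : ℝ) + 1) ^ (k + 4) * C ^ 2 / q ^ m) :=
        mul_le_mul_of_nonneg_left (hLL m) (pow_nonneg hρ.1.le m)
    _ = _ := by
        rw [hqq, mul_pow]
        field_simp
        ring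

end Pool.Agent.H7.KR
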