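import Pool.Agent.H7.KR.Stm

set_option autoImplicit false

/-! # Stub KR-ARG (helper51, after SZ-AREA of helper69): the area inequality for the `j`-th Taylor coefficient -/

namespace Pool.Agent.H7.KR

open Metric Set Filter Topology
open Pool.Agent.W677.Mar
open Pool.Agent.H33R3.Bom (J)
open Pool.Agent.H64.CX (bt rr TP TN)
open Pool.Agent.H7.CY (ej laurent fibre)
open Pool.Agent.H7.SZ (Sc)

namespace ARGaux

/-- the Laurent coefficients of nonnegative index -/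
noncomputable def cc (α : ℂ) (p N : ℕ) (ν : ℕ → ℕ → ℂ) (j i : ℕ) : ℂ :=
  if p ≤ i ∧ N ∣ i - p then TP α ν ((i - p) / N) ((i - p) / N + j) else 0

/-- the Laurent coefficients of negative index -/
noncomputable def dd (α : ℂ) (p N : ℕ) (ν : ℕ → ℕ → ℂ) (j i : ℕ) : ℂ :=
  if i ≠ 0 ∧ N ∣ i + p ∧ (i + p) / N ≤ j then TN α ν ((i + p) / N) (j - (i + p) / N) else 0

theorem cc_eq (α : ℂ) {p N : ℕ} (hN : 1 ≤ N) (ν : ℕ → ℕ → ℂ) (j n : ℕ) :
    cc α p N ν j (N * n + p) = TP α ν n (n + j) := by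
  unfold cc
  rw [if_pos ⟨by omega, by rw [Nat.add_sub_cancel]; exact dvd_mul_right _ _⟩, Nat.add_sub_cancel,
    Nat.mul_div_cancel_left _ (by omega)]

/-- the indices `k` with a nonzero exponent -/
def KK (p N j : ℕ) : Finset ℕ := (Finset.Icc 1 j).filter fun k => N * k ≠ p

/-- the support of `dd` -/
def DD (p N j : ℕ) : Finset ℕ := (KK p N j).image fun k => N * k - p

theorem le_mul {p N k : ℕ} (hp : p ≤ N) (hk : 1 ≤ k) : p ≤ N * k :=
  hp.trans (Nat.le_mul_of_pos_right N hk)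

theorem dd_mem (α : ℂ) {p N : ℕ} (hpN : p ≤ N) (hN : 1 ≤ N) {ν : ℕ → ℕ → ℂ} {j k : ℕ} (h : k ∈ KK p N j) :
    dd α p N ν j (N * k - p) = TN α ν k (j - k) := by
  unfold KK at h
  rw [Finset.mem_filter, Finset.mem_Icc] at h
  have h1 := le_mul hpN h.1.1
  unfold dd
  rw [Nat.sub_add_cancel h1, Nat.mul_div_cancel_left _ (by omega), if_pos ⟨by omega, dvd_mul_right _ _, h.1.2⟩]

theorem dd_notMem (α : ℂ) {p N : ℕ} (hp : 1 ≤ p) (hN : 1 ≤ N) {ν : ℕ → ℕ → ℂ} {j i : ℕ} (h : i ∉ DD p N j) :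
    dd α p N ν j i = 0 := by
  unfold dd
  rw [if_neg]
  rintro ⟨h1, ⟨k, hk⟩, h2⟩
  apply h
  rw [hk, Nat.mul_div_cancel_left _ (by omega)] at h2
  unfold DD KK
  rw [Finset.mem_image]
  refine ⟨k, ?_, by omega⟩
  rw [Finset.mem_filter, Finset.mem_Icc]
  refine ⟨⟨Nat.pos_of_ne_zero ?_, h2⟩, by omega⟩
  rintro rfl
  omega

theorem sum_DD {p N : ℕ} (hpN : p ≤ N) (hN : 1 ≤ N) (j : ℕ) {E : Type} [AddCommMonoid E] (g : ℕ → E) :
    ∑ i ∈ DD p N j, g i = ∑ k ∈ KK p N j, g (N * k - p) := by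
  unfold DD KK
  rw [Finset.sum_image]
  intro a ha b hb hab
  rw [Finset.mem_coe, Finset.mem_filter, Finset.mem_Icc] at ha hb
  simp only at hab
  have h1 := le_mul hpN ha.1.1
  have h2 := le_mul hpN hb.1.1
  exact Nat.eq_of_mul_eq_mul_left (by omega : 0 < N) (by omega)

theorem dd_bound (α : ℂ) {p N : ℕ} (hp : 1 ≤ p) (hN : 1 ≤ N) (ν : ℕ → ℕ → ℂ) (j : ℕ) {r : ℝ} (hr : 0 < r) :
    ∃ C : ℝ, ∀ k, ‖dd α p N ν j k‖ ≤ C * r ^ k := by
  refine ⟨∑ k ∈ DD p N j, ‖dd α p N ν j k‖ / r ^ k, fun k => ?_⟩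
  have hC : 0 ≤ ∑ k ∈ DD p N j, ‖dd α p N ν j k‖ / r ^ k := by positivity
  by_cases h : k ∈ DD p N j
  · have h1 := Finset.single_le_sum (f := fun k => ‖dd α p N ν j k‖ / r ^ k)
      (fun i _ => by positivity) h
    rw [← div_le_iff₀ (by positivity)]
    exact h1
  · rw [dd_notMem α hp hN h, norm_zero]
    positivity

theorem cc_even (α : ℂ) {p N : ℕ} {ν : ℕ → ℕ → ℂ} {j i : ℕ} (h : i ∉ Set.range (fun n : ℕ => N * n + p)) :
    cc α p N ν j i = 0 := by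
  unfold cc
  rw [if_neg]
  rintro ⟨h1, k, hk⟩
  exact h ⟨k, by simp only; omega⟩

theorem odd_inj {p N : ℕ} (hN : 1 ≤ N) : Function.Injective (fun n : ℕ => N * n + p) := by
  intro a b hab
  simp only at hab
  exact Nat.eq_of_mul_eq_mul_left (by omega : 0 < N) (by omega)

/-- the inequality on circles -/
theorem area_R {g : ℂ → ℂ} {ν : ℕ → ℕ → ℂ} (α : ℂ) {p N : ℕ} (hp : 1 ≤ p) (hpN : p ≤ N) (hG : IsG0 g)
    (hs : ∀ a : ℕ, ∀ z ∈ ball (0 : ℂ) 1, Summable fun b : ℕ => ν a b * z ^ b)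
    (j M : ℕ) (P₀ : Polynomial ℂ)
    (hP₀ : ∀ v : ℂ, v ≠ 0 → ‖v‖ < 1 → v ^ p * ej α ν j (v ^ N) = P₀.eval (g v / v))
    {R : ℝ} (hR0 : 0 < R) (hR1 : R < 1) :
    ∑ n ∈ Finset.range M, ((N : ℝ) * n + p) * ‖TP α ν n (n + j)‖ ^ 2 * R ^ (2 * (N * n + p)) ≤
      ∑ k ∈ Finset.Icc 1 j, ((N : ℝ) * k - p) * ‖TN α ν k (j - k)‖ ^ 2 *
        (R⁻¹) ^ (2 * (N * k - p)) := by
  have hN : 1 ≤ N := hp.trans hpN
  have hv2 : ∀ v : ℂ, ‖v‖ < 1 → v ^ N ∈ ball (0 : ℂ) 1 := by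
    intro v hv
    rw [mem_ball_zero_iff, norm_pow]
    exact pow_lt_one₀ (norm_nonneg _) hv (by omega)
  have hL : ∀ v : ℂ, v ≠ 0 → ‖v‖ < 1 → HasSum (fun n : ℕ => TP α ν n (n + j) * v ^ (N * n + p))
      (v ^ p * ej α ν j (v ^ N) - ∑ k ∈ Finset.Icc 1 j, TN α ν k (j - k) * (v⁻¹) ^ (N * k - p)) := by
    intro v hv0 hv1
    have h1 := (laurent α (pow_ne_zero N hv0) (fun a => hs a (v ^ N) (hv2 v hv1)) j).mul_left (v ^ p)
    rw [mul_sub, Finset.mul_sum] at h1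
    have e1 : ∑ k ∈ Finset.Icc 1 j, v ^ p * (TN α ν k (j - k) * ((v ^ N)⁻¹) ^ k) =
        ∑ k ∈ Finset.Icc 1 j, TN α ν k (j - k) * (v⁻¹) ^ (N * k - p) := by
      apply Finset.sum_congr rfl
      intro k hk
      rw [Finset.mem_Icc] at hk
      have h2 := le_mul hpN hk.1
      have q1 : ((v ^ N)⁻¹) ^ k = (v⁻¹) ^ (N * k - p) * (v⁻¹) ^ p := by
        rw [← pow_add, Nat.sub_add_cancel h2, pow_mul, inv_pow v N]
      have q2 : v ^ p * (v⁻¹) ^ p = 1 := by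
        rw [← mul_pow, mul_inv_cancel₀ hv0, one_pow]
      rw [q1]
      linear_combination (TN α ν k (j - k) * (v⁻¹) ^ (N * k - p)) * q2
    rw [e1] at h1
    refine h1.congr_fun ?_ |> fun h => h
    intro n
    rw [pow_add, pow_mul]
    ring
  set Φ : ℂ → ℂ := fun v => ∑' n : ℕ, TP α ν n (n + j) * v ^ (N * n + p) with hΦ
  have hΦs : ∀ v ∈ ball (0 : ℂ) 1, HasSum (fun i : ℕ => cc α p N ν j i * v ^ i) (Φ v) := by
    intro v hv
    rw [← (odd_inj (p := p) hN).hasSum_iff (f := fun i : ℕ => cc α p N ν j i * v ^ i)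
      (fun i hi => by rw [cc_even α hi, zero_mul])]
    have e : (fun i : ℕ => cc α p N ν j i * v ^ i) ∘ (fun n : ℕ => N * n + p) =
        fun n : ℕ => TP α ν n (n + j) * v ^ (N * n + p) := by
      funext n
      simp only [Function.comp]
      rw [cc_eq α hN]
    rw [e]
    by_cases hv0 : v = 0
    · subst hv0
      have e0 : (fun n : ℕ => TP α ν n (n + j) * (0 : ℂ) ^ (N * n + p)) = fun _ => 0 := by
        funext n
        rw [zero_pow (by omega), mul_zero]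
      rw [hΦ]
      simp only [e0, tsum_zero]
      exact hasSum_zero
    · exact (hL v hv0 (mem_ball_zero_iff.1 hv)).summable.hasSum
  have hd : ∀ v : ℂ, ∑' i : ℕ, dd α p N ν j i * (v⁻¹) ^ i =
      ∑ k ∈ KK p N j, TN α ν k (j - k) * (v⁻¹) ^ (N * k - p) := by
    intro v
    rw [tsum_eq_sum (s := DD p N j) (fun k hk => by rw [dd_notMem α hp hN hk, zero_mul]), sum_DD hpN hN]
    exact Finset.sum_congr rfl fun k hk => by rw [dd_mem α hpN hN hk]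
  -- the constant term
  obtain ⟨κ, hκ⟩ : ∃ κ : ℂ, κ = ∑ k ∈ (Finset.Icc 1 j).filter (fun k => ¬ N * k ≠ p), TN α ν k (j - k) := ⟨_, rfl⟩
  have hsplit : ∀ v : ℂ, ∑ k ∈ Finset.Icc 1 j, TN α ν k (j - k) * (v⁻¹) ^ (N * k - p) =
      ∑ k ∈ KK p N j, TN α ν k (j - k) * (v⁻¹) ^ (N * k - p) + κ := by
    intro v
    rw [← Finset.sum_filter_add_sum_filter_not (Finset.Icc 1 j) (fun k => N * k ≠ p), hκ]
    congr 1
    apply Finset.sum_congr rfl
    intro k hk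
    rw [Finset.mem_filter, not_not] at hk
    rw [hk.2, Nat.sub_self, pow_zero, mul_one]
  set P : Polynomial ℂ := P₀ - Polynomial.C κ with hPdef
  have heq : ∀ v : ℂ, v ≠ 0 → ‖v‖ < 1 →
      Φ v + ∑' i : ℕ, dd α p N ν j i * (v⁻¹) ^ i = P.eval (g v / v) := by
    intro v hv0 hv1
    rw [hd, hPdef, Polynomial.eval_sub, Polynomial.eval_C, ← hP₀ v hv0 hv1]
    have h1 := (hL v hv0 hv1).tsum_eq
    rw [hsplit] at h1
    rw [hΦ]
    simp only
    rw [h1]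
    ring
  obtain ⟨C, hC⟩ := dd_bound α hp hN ν j (half_pos hR0)
  obtain ⟨g1, g2, g3⟩ := Pool.Agent.H643R3.BomC4.taskC4 R (R / 2) C (cc α p N ν j)
    (dd α p N ν j) Φ (half_pos hR0) (half_lt_self hR0) hR1 (by simp [dd]) hΦs hC
  have g4 := t1 _ hG P R hR0 hR1
  have hnc : ∀ t : ℝ, ‖circleMap 0 R t‖ = R := fun t => by simp [abs_of_pos hR0]
  have hAo : IsOpen {z : ℂ | 0 < ‖z‖ ∧ ‖z‖ < 1} :=
    (isOpen_lt continuous_const continuous_norm).inter (isOpen_lt continuous_norm continuous_const)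
  have hJ : J R (fun z => Φ z + ∑' k : ℕ, dd α p N ν j k * (z⁻¹) ^ k)
      (deriv fun z => Φ z + ∑' k : ℕ, dd α p N ν j k * (z⁻¹) ^ k) =
      J R (fun z => P.eval (g z / z)) (deriv fun z => P.eval (g z / z)) := by
    unfold J
    congr 1
    apply intervalIntegral.integral_congr
    intro t _
    have hm : 0 < ‖circleMap 0 R t‖ ∧ ‖circleMap 0 R t‖ < 1 := by
      rw [hnc]; exact ⟨hR0, hR1⟩
    have hev : (fun z => Φ z + ∑' k : ℕ, dd α p N ν j k * (z⁻¹) ^ k) =ᶠ[𝓝 (circleMap 0 R t)]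
        fun z => P.eval (g z / z) := by
      filter_upwards [hAo.mem_nhds hm] with z hz using heq z (norm_pos_iff.1 hz.1) hz.2
    show (starRingEnd ℂ) (Φ (circleMap 0 R t) + ∑' k : ℕ, dd α p N ν j k * ((circleMap 0 R t)⁻¹) ^ k) *
        (circleMap 0 R t * deriv (fun z => Φ z + ∑' k : ℕ, dd α p N ν j k * (z⁻¹) ^ k)
          (circleMap 0 R t)) = _
    rw [hev.deriv_eq, heq _ (norm_pos_iff.1 hm.1) hm.2]
  rw [← hJ, g3] at g4
  have hpi : 0 < 2 * Real.pi := by positivity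
  have g5 : ∑' k : ℕ, (k : ℝ) * ‖cc α p N ν j k‖ ^ 2 * R ^ (2 * k) ≤
      ∑' k : ℕ, (k : ℝ) * ‖dd α p N ν j k‖ ^ 2 * (R⁻¹) ^ (2 * k) := by
    by_contra hcon
    push Not at hcon
    have := mul_pos hpi (sub_pos.2 hcon)
    linarith
  have g6 : ∑' k : ℕ, (k : ℝ) * ‖dd α p N ν j k‖ ^ 2 * (R⁻¹) ^ (2 * k) =
      ∑ k ∈ Finset.Icc 1 j, ((N : ℝ) * k - p) * ‖TN α ν k (j - k)‖ ^ 2 *
        (R⁻¹) ^ (2 * (N * k - p)) := by
    rw [tsum_eq_sum (s := DD p N j) (fun k hk => by rw [dd_notMem α hp hN hk]; simp), sum_DD hpN hN]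
    have e0 : ∀ k, 1 ≤ k → ((N * k - p : ℕ) : ℝ) = (N : ℝ) * k - p := by
      intro k hk
      rw [Nat.cast_sub (le_mul hpN hk)]
      push_cast
      ring
    have e1 : ∑ k ∈ KK p N j, ((N * k - p : ℕ) : ℝ) * ‖dd α p N ν j (N * k - p)‖ ^ 2 * (R⁻¹) ^ (2 * (N * k - p)) =
        ∑ k ∈ KK p N j, ((N : ℝ) * k - p) * ‖TN α ν k (j - k)‖ ^ 2 * (R⁻¹) ^ (2 * (N * k - p)) := by
      refine Finset.sum_congr rfl fun k hk => ?_
      rw [dd_mem α hpN hN hk]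
      unfold KK at hk
      rw [Finset.mem_filter, Finset.mem_Icc] at hk
      rw [e0 k hk.1.1]
    rw [e1]
    unfold KK
    apply Finset.sum_subset (Finset.filter_subset _ _)
    intro k hk hk2
    rw [Finset.mem_filter, not_and, not_not] at hk2
    have h3 := hk2 hk
    have h4 : (N : ℝ) * k - p = 0 := by
      rw [← h3]
      push_cast
      ring
    rw [h4, zero_mul, zero_mul]
  rw [← g6]
  refine le_trans ?_ g5
  have g7 := g1.sum_le_tsum ((Finset.range M).image fun n : ℕ => N * n + p)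
    (fun k _ => by positivity)
  rw [Finset.sum_image (fun a _ b _ hab => odd_inj hN hab)] at g7
  refine le_trans (le_of_eq ?_) g7
  refine Finset.sum_congr rfl fun n _ => ?_
  rw [cc_eq α hN]
  push_cast
  ring

end ARGaux

open ARGaux in
theorem arg : S_ARG := by
  intro hPOL hIG F Λ ν p N hF hΛ hp hpN hS j M hj
  obtain ⟨P, hP⟩ := hPOL F Λ ν p N hF hΛ hp hpN hS j hj
  have hN : 1 ≤ N := hp.trans hpN
  have hN0 : (0 : ℝ) < N := by exact_mod_cast hN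
  have hG := hIG F Λ N hF hΛ hN
  obtain ⟨α, hα⟩ : ∃ α : ℂ, α = -(((p : ℝ) / N : ℝ) : ℂ) := ⟨_, rfl⟩
  have hs := (fibre (K := fun ζ z => Complex.exp ((((p : ℝ) / N : ℝ) : ℂ) * Λ (ζ, z))) hS.2).2
  rw [← hα] at hP ⊢
  have hA : Tendsto (fun R : ℝ => ∑ n ∈ Finset.range M, ((N : ℝ) * n + p) * ‖TP α ν n (n + j)‖ ^ 2 *
      R ^ (2 * (N * n + p))) (𝓝[<] 1)
      (𝓝 (∑ n ∈ Finset.range M, ((N : ℝ) * n + p) * ‖TP α ν n (n + j)‖ ^ 2)) := by
    have hcont : Continuous (fun R : ℝ => ∑ n ∈ Finset.range M, ((N : ℝ) * n + p) *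
      ‖TP α ν n (n + j)‖ ^ 2 * R ^ (2 * (N * n + p))) := by fun_prop
    have := (hcont.tendsto 1).mono_left (nhdsWithin_le_nhds (s := Iio 1))
    simpa using this
  have hB : Tendsto (fun R : ℝ => ∑ k ∈ Finset.Icc 1 j, ((N : ℝ) * k - p) *
      ‖TN α ν k (j - k)‖ ^ 2 * (R⁻¹) ^ (2 * (N * k - p))) (𝓝[<] 1)
      (𝓝 (∑ k ∈ Finset.Icc 1 j, ((N : ℝ) * k - p) * ‖TN α ν k (j - k)‖ ^ 2)) := by
    have hinv : Tendsto (fun R : ℝ => R⁻¹) (𝓝[<] 1) (𝓝 1) := by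
      have := (continuousAt_inv₀ (one_ne_zero (α := ℝ))).tendsto.mono_left
        (nhdsWithin_le_nhds (s := Iio 1))
      simpa using this
    have := tendsto_finsetSum (Finset.Icc 1 j) fun k _ =>
      (hinv.pow (2 * (N * k - p))).const_mul (((N : ℝ) * k - p) * ‖TN α ν k (j - k)‖ ^ 2)
    simpa using this
  have hmain : ∑ n ∈ Finset.range M, ((N : ℝ) * n + p) * ‖TP α ν n (n + j)‖ ^ 2 ≤
      ∑ k ∈ Finset.Icc 1 j, ((N : ℝ) * k - p) * ‖TN α ν k (j - k)‖ ^ 2 := by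
    refine le_of_tendsto_of_tendsto hA hB ?_
    have hIoo : Ioo (0 : ℝ) 1 ∈ 𝓝[<] (1 : ℝ) := Ioo_mem_nhdsLT one_pos
    filter_upwards [hIoo] with R hR
    exact area_R α hp hpN hG hs j M P hP hR.1 hR.2
  have e1 : ∑ n ∈ Finset.range M, ((N : ℝ) * n + p) * ‖TP α ν n (n + j)‖ ^ 2 =
      N * ∑ n ∈ Finset.range M, ((n : ℝ) + (p : ℝ) / N) * ‖TP α ν n (n + j)‖ ^ 2 := by
    rw [Finset.mul_sum]
    refine Finset.sum_congr rfl fun n _ => ?_
    field_simp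
  have e2 : ∑ k ∈ Finset.Icc 1 j, ((N : ℝ) * k - p) * ‖TN α ν k (j - k)‖ ^ 2 =
      N * ∑ k ∈ Finset.Icc 1 j, ((k : ℝ) - (p : ℝ) / N) * ‖TN α ν k (j - k)‖ ^ 2 := by
    rw [Finset.mul_sum]
    refine Finset.sum_congr rfl fun n _ => ?_
    field_simp
  rw [e1, e2] at hmain
  exact le_of_mul_le_mul_left hmain hN0

end Pool.Agent.H7.KR
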