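import Pool.Agent.H7.KR.Stm

set_option autoImplicit false

/-! # KR-IGG (helper82), adapted from `Pool/Agent/H7/SZ/IG.lean` -/

namespace Pool.Agent.H7.KR

open Metric Set Filter Topology MeasureTheory
open Pool.Agent.W677.Mar (IsG0)
open Pool.Agent.H7.SZ (Sc)

theorem igg : S_IGG := by
  intro F Λ N hF hL hN
  have hN0 : N ≠ 0 := by omega
  have hNc : (N : ℂ) ≠ 0 := by exact_mod_cast hN0
  have hz0 : (0 : ℂ) ∈ ball (0 : ℂ) 1 := mem_ball_self one_pos
  have hsq : ∀ v ∈ ball (0 : ℂ) 1, v ^ N ∈ ball (0 : ℂ) 1 := by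
    intro v hv
    rw [mem_ball_zero_iff] at hv ⊢
    rw [norm_pow]
    exact pow_lt_one₀ (norm_nonneg v) hv hN0
  have hpow : ∀ v : ℂ, Complex.exp (-(Λ (0, v ^ N) / N)) ^ N = (Complex.exp (Λ (0, v ^ N)))⁻¹ := by
    intro v
    rw [← Complex.exp_nat_mul, ← Complex.exp_neg]
    congr 1
    field_simp
  have hFv : ∀ v ∈ ball (0 : ℂ) 1, v ≠ 0 →
      (Complex.exp (-(Λ (0, v ^ N) / N)) / v) ^ N * F (v ^ N) = 1 := by
    intro v hv hv0
    have h := hL.exp 0 hz0 (v ^ N) (hsq v hv)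
    rw [sub_zero, hF.zero, sub_zero] at h
    have h1 := Complex.exp_ne_zero (Λ (0, v ^ N))
    have h2 : v ^ N ≠ 0 := pow_ne_zero _ hv0
    rw [← h, div_pow, hpow]
    field_simp
  refine ⟨?_, ?_, ?_⟩
  · have h1 : DifferentiableOn ℂ (fun v : ℂ => Λ (0, v ^ N)) (ball 0 1) := by
      have h2 : DifferentiableOn ℂ (fun v : ℂ => ((0 : ℂ), v ^ N)) (ball 0 1) :=
        ((differentiable_const (0 : ℂ)).prodMk (differentiable_id.pow N)).differentiableOn
      exact hL.diff.comp h2 (fun v hv => mk_mem_prod hz0 (hsq v hv))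
    exact ((h1.div_const _).neg).cexp
  · show Complex.exp (-(Λ (0, 0 ^ N) / N)) = 1
    rw [zero_pow hN0, hL.zero, zero_div, neg_zero, Complex.exp_zero]
  · rintro u ⟨hu, hu0⟩ v ⟨hv, hv0⟩ h
    have hu0' : u ≠ 0 := fun h => hu0 (by rw [h]; rfl)
    have hv0' : v ≠ 0 := fun h => hv0 (by rw [h]; rfl)
    have h' : Complex.exp (-(Λ (0, u ^ N) / N)) / u = Complex.exp (-(Λ (0, v ^ N) / N)) / v := h
    have e1 := hFv u hu hu0'
    have e2 := hFv v hv hv0'
    rw [h'] at e1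
    have hX : (Complex.exp (-(Λ (0, v ^ N) / N)) / v) ^ N ≠ 0 := by
      intro h0
      rw [h0, zero_mul] at e2
      exact zero_ne_one e2
    have h3 : F (u ^ N) = F (v ^ N) := mul_left_cancel₀ hX (e1.trans e2.symm)
    have h4 : u ^ N = v ^ N := hF.inj (hsq u hu) (hsq v hv) h3
    rw [h4] at h'
    have h5 := Complex.exp_ne_zero (-(Λ (0, v ^ N) / N))
    rw [div_eq_div_iff hu0' hv0'] at h'
    exact (mul_left_cancel₀ h5 h').symm

end Pool.Agent.H7.KR
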