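import Pool.Agent.H7.SZ.Stm

set_option autoImplicit false

/-! # Project KR: the integral means of `|f'|^λ`, `λ ≤ 2/5` (MP_433f59_an). Statements.
Here `s = p / N = λ / 2` is rational, `α = -s`. -/

namespace Pool.Agent.H7.KR

open Metric Set Filter Topology MeasureTheory
open scoped ENNReal
open Pool.Agent.H64.CX (bt rr TP TN GD SN)
open Pool.Agent.W677.Mar (IsG0)
open Pool.Agent.H7.SZ (Sc)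

/-- the weights -/
noncomputable def wt (μ : ℝ) (j : ℕ) : ℝ := ((j : ℝ) + 1) ^ (-μ)

/-- `Λ (ζ, z) = log ((F z - F ζ) / (z - ζ))` -/
structure Lk (F : ℂ → ℂ) (Λ : ℂ × ℂ → ℂ) : Prop where
  diff : DifferentiableOn ℂ Λ (ball (0 : ℂ) 1 ×ˢ ball (0 : ℂ) 1)
  symm : ∀ ζ ∈ ball (0 : ℂ) 1, ∀ z ∈ ball (0 : ℂ) 1, Λ (ζ, z) = Λ (z, ζ)
  exp : ∀ ζ ∈ ball (0 : ℂ) 1, ∀ z ∈ ball (0 : ℂ) 1, Complex.exp (Λ (ζ, z)) * (z - ζ) = F z - F ζ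
  diag : ∀ ζ ∈ ball (0 : ℂ) 1, Complex.exp (Λ (ζ, ζ)) = deriv F ζ
  zero : Λ (0, 0) = 0

/-- the double power series of `exp (s Λ)` -/
def Sr (s : ℝ) (Λ : ℂ × ℂ → ℂ) (ν : ℕ → ℕ → ℂ) : Prop :=
  (∀ a b, ν a b = ν b a) ∧ ∀ ζ ∈ ball (0 : ℂ) 1, ∀ z ∈ ball (0 : ℂ) 1,
    HasSum (fun p : ℕ × ℕ => ν p.1 p.2 * ζ ^ p.1 * z ^ p.2) (Complex.exp ((s : ℂ) * Λ (ζ, z)))

/-- the positive part in the degree `m` (without `n = m`) -/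
noncomputable def LG (s μ : ℝ) (ν : ℕ → ℕ → ℂ) (m : ℕ) : ℝ :=
  ∑ n ∈ Finset.range m, ((n : ℝ) + s) * wt μ (m - n) * ‖TP (-(s : ℂ)) ν n m‖ ^ 2

/-- the negative part in the degree `m` -/
noncomputable def RG (s μ : ℝ) (ν : ℕ → ℕ → ℂ) (m : ℕ) : ℝ≥0∞ :=
  ∑' k : ℕ, ENNReal.ofReal (((k : ℝ) + 1 - s) * wt μ (m + k + 1) *
    ‖TN (-(s : ℂ)) ν (k + 1) m‖ ^ 2)

/-- the positive part with the weights `n` -/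
noncomputable def PG (s μ : ℝ) (ν : ℕ → ℕ → ℂ) (m : ℕ) : ℝ :=
  ∑ n ∈ Finset.range m, (n : ℝ) * wt μ (m - n) * ‖TP (-(s : ℂ)) ν n m‖ ^ 2

/-- KR-LK: the logarithm of the divided difference -/
def S_LK : Prop := ∀ F : ℂ → ℂ, Sc F → ∃ Λ : ℂ × ℂ → ℂ, Lk F Λ

/-- KR-POLG: the Taylor coefficients in `ζ` are polynomials in `1 / G(v)`, `G(v)^N = F(v^N)` -/
def S_POLG : Prop :=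
  ∀ (F : ℂ → ℂ) (Λ : ℂ × ℂ → ℂ) (ν : ℕ → ℕ → ℂ) (p N : ℕ), Sc F → Lk F Λ → 1 ≤ p → p ≤ N →
    Sr ((p : ℝ) / N) Λ ν → ∀ j : ℕ, 1 ≤ j →
    ∃ P : Polynomial ℂ, ∀ v : ℂ, v ≠ 0 → ‖v‖ < 1 →
      v ^ p * Pool.Agent.H7.CY.ej (-(((p : ℝ) / N : ℝ) : ℂ)) ν j (v ^ N) =
        P.eval (Complex.exp (-(Λ (0, v ^ N) / N)) / v)

/-- KR-IGG: the root transform -/
def S_IGG : Prop :=
  ∀ (F : ℂ → ℂ) (Λ : ℂ × ℂ → ℂ) (N : ℕ), Sc F → Lk F Λ → 1 ≤ N →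
    IsG0 fun v => Complex.exp (-(Λ (0, v ^ N) / N))

/-- KR-ARG: the area inequality for the `j`-th Taylor coefficient, `j ≥ 1` -/
def S_ARG : Prop :=
  S_POLG → S_IGG → ∀ (F : ℂ → ℂ) (Λ : ℂ × ℂ → ℂ) (ν : ℕ → ℕ → ℂ) (p N : ℕ), Sc F → Lk F Λ →
    1 ≤ p → p ≤ N → Sr ((p : ℝ) / N) Λ ν → ∀ j M : ℕ, 1 ≤ j →
    ∑ n ∈ Finset.range M, ((n : ℝ) + (p : ℝ) / N) *
        ‖TP (-(((p : ℝ) / N : ℝ) : ℂ)) ν n (n + j)‖ ^ 2 ≤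
      ∑ k ∈ Finset.Icc 1 j, ((k : ℝ) - (p : ℝ) / N) *
        ‖TN (-(((p : ℝ) / N : ℝ) : ℂ)) ν k (j - k)‖ ^ 2

/-- KR-WARG: the weighted sum of the area inequalities -/
def S_WARG : Prop :=
  ∀ (s μ : ℝ) (ν : ℕ → ℕ → ℂ), 0 < s → s ≤ 1 / 2 → (∀ j M : ℕ, 1 ≤ j →
    ∑ n ∈ Finset.range M, ((n : ℝ) + s) * ‖TP (-(s : ℂ)) ν n (n + j)‖ ^ 2 ≤
      ∑ k ∈ Finset.Icc 1 j, ((k : ℝ) - s) * ‖TN (-(s : ℂ)) ν k (j - k)‖ ^ 2) →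
    ∀ ρ ∈ Ioo (0 : ℝ) 1, ∑' m : ℕ, ENNReal.ofReal (ρ ^ m * LG s μ ν m) ≤
      ∑' m : ℕ, ENNReal.ofReal (ρ ^ m) * RG s μ ν m

/-- KR-FRG: the area of the image of `G ^ p`, `G(v)^N = F(v^N)` -/
def S_FRG : Prop :=
  ∀ (F : ℂ → ℂ) (Λ : ℂ × ℂ → ℂ) (ν : ℕ → ℕ → ℂ) (p N : ℕ), Sc F → Lk F Λ → 1 ≤ p → p ≤ N →
    Sr ((p : ℝ) / N) Λ ν →
    ∀ r ∈ Ioo (0 : ℝ) 1, ∀ M : ℝ, (∀ z : ℂ, ‖z‖ ≤ r → ‖F z‖ ≤ M) → ∀ n : ℕ,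
      ∑ m ∈ Finset.range n, ((N : ℝ) * m + p) * ‖ν 0 m‖ ^ 2 * r ^ (2 * m) *
        r ^ (2 * ((p : ℝ) / N)) ≤ p * M ^ (2 * ((p : ℝ) / N))

/-- KR-DMG: the forced terms, when `|F| ≤ (1 - |z|) ^ (-2)` -/
def S_DMG : Prop :=
  ∀ (y : ℕ → ℝ) (p N : ℕ), (∀ m, 0 ≤ y m) → 1 ≤ p → p ≤ N →
    (∀ r ∈ Ioo (0 : ℝ) 1, ∀ n : ℕ,
      ∑ m ∈ Finset.range n, ((N : ℝ) * m + p) * y m * r ^ (2 * m) *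
        r ^ (2 * ((p : ℝ) / N)) ≤ p * ((1 - r) ^ (-2 : ℝ)) ^ (2 * ((p : ℝ) / N))) →
    ∃ C : ℝ, 0 ≤ C ∧ ∀ M : ℕ, 1 ≤ M →
      ∑ m ∈ Finset.range M, ((m : ℝ) + 1) * y m ≤ C * (M : ℝ) ^ (4 * ((p : ℝ) / N))

/-- KR-SUMG: convergence for `ρ < 1` -/
def S_SUMG : Prop :=
  ∀ (s μ : ℝ) (ν : ℕ → ℕ → ℂ), 0 < s → s ≤ 1 / 2 →
    (∀ s ∈ Ioo (0 : ℝ) 1, ∃ C : ℝ, ∀ a b, ‖ν a b‖ * s ^ (a + b) ≤ C) →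
    ∀ ρ ∈ Ioo (0 : ℝ) 1, Summable fun m : ℕ => ρ ^ m * LG s μ ν m

/-- KR-LOWG: the negative part is finite -/
def S_LOWG : Prop :=
  ∀ (s σ : ℝ) (ν : ℕ → ℕ → ℂ) (m : ℕ), 0 < s → s ≤ 1 / 2 → 0 < σ → RG s (σ - 2 * s) ν m ≠ ⊤

/-- KR-PRG: the quadratic inequality in one degree -/
def S_PRG : Prop :=
  Pool.Agent.H64.CX.S_IDN → Pool.Agent.H64.CX.S_RN → Pool.Agent.H64.CX.S_UN →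
  ∀ s σ : ℝ, 0 < s → s ≤ 1 / 2 → 0 < σ →
    (∃ (δ : ℝ) (M₀ : ℕ), 0 < δ ∧ δ ≤ 1 ∧ ∀ m, M₀ ≤ m →
      ∑' k : ℕ, ENNReal.ofReal (SN (-(s : ℂ)) (σ - 2 * s) m (k + 1)) ≤ ENNReal.ofReal (1 - δ)) →
    ∃ (δ C : ℝ) (m₀ : ℕ), 0 < δ ∧ 0 ≤ C ∧ ∀ ν : ℕ → ℕ → ℂ, (∀ a b, ν a b = ν b a) →
      ∀ m : ℕ, m₀ ≤ m →
      RG s (σ - 2 * s) ν m + ENNReal.ofReal (δ * PG s (σ - 2 * s) ν m) ≤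
        ENNReal.ofReal (LG s (σ - 2 * s) ν m +
          C * (((m : ℝ) + 1) ^ (2 * s - σ) * (1 + Real.log ((m : ℝ) + 1)) * ‖ν 0 m‖ ^ 2))

/-- KR-GDG: the diagonal coefficients -/
def S_GDG : Prop :=
  Pool.Agent.H64.CX.S_HID → Pool.Agent.H64.CX.S_BTU → ∀ s σ : ℝ, 0 < s → s ≤ 1 / 2 → 0 < σ →
    -1 < σ - 2 * s → ∃ C : ℝ, 0 ≤ C ∧ ∀ ν : ℕ → ℕ → ℂ, (∀ a b, ν a b = ν b a) → ∀ m : ℕ, 1 ≤ m →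
      ‖GD ν m‖ ^ 2 ≤ C * (((m : ℝ) + 1) ^ σ * PG s (σ - 2 * s) ν m +
        ((m : ℝ) + 1) ^ (2 * s) * ‖ν 0 m‖ ^ 2)

/-- KR-FNG: the sums of the squares of the diagonal coefficients -/
def S_FNG : Prop :=
  ∀ (s σ ε C : ℝ) (G E y : ℕ → ℝ), 0 < s → s ≤ 1 / 4 → 0 < σ → 0 < ε → 0 ≤ C →
    (∀ m, 0 ≤ E m) → (∀ m, 0 ≤ y m) →
    (∀ m, 1 ≤ m → G m ≤ C * (((m : ℝ) + 1) ^ σ * E m + ((m : ℝ) + 1) ^ (2 * s) * y m)) →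
    (∀ M : ℕ, 1 ≤ M → ∑ m ∈ Finset.range M, ((m : ℝ) + 1) * y m ≤ C * (M : ℝ) ^ (4 * s)) →
    (∀ ρ ∈ Ioo (0 : ℝ) 1, ∑' m : ℕ, ENNReal.ofReal (ρ ^ m * E m) ≤
      ENNReal.ofReal C + ENNReal.ofReal C * ∑' m : ℕ, ENNReal.ofReal (ρ ^ m *
        (((m : ℝ) + 1) ^ (2 * s - σ) * (1 + Real.log ((m : ℝ) + 1)) * y m))) →
    ∃ B : ℝ, 0 ≤ B ∧ ∀ M : ℕ, 1 ≤ M →
      ∑ m ∈ Finset.range M, G m ≤ B * (M : ℝ) ^ (max σ (6 * s - 1) + ε)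

/-- KR-MNG: from the coefficients to the means -/
def S_MNG : Prop :=
  ∀ (e : ℝ) (a : ℕ → ℂ) (g : ℂ → ℂ) (B : ℝ), 0 < e → 0 ≤ B →
    (∀ z ∈ ball (0 : ℂ) 1, HasSum (fun m : ℕ => a m * z ^ m) (g z)) →
    (∀ M : ℕ, 1 ≤ M → ∑ m ∈ Finset.range M, ‖a m‖ ^ 2 ≤ B * (M : ℝ) ^ e) →
    ∃ C : ℝ, 0 ≤ C ∧ ∀ r ∈ Ioo (0 : ℝ) 1,
      ∫ t in (0 : ℝ)..(2 * Real.pi), ‖g (circleMap 0 r t)‖ ^ 2 ≤ C * (1 - r) ^ (-e)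

/-- the mean `I_λ(r, g)` of the problem -/
noncomputable def II (lam r : ℝ) (g : ℂ → ℂ) : ℝ :=
  ((1 / (2 * Real.pi)) * ∫ t in (0 : ℝ)..(2 * Real.pi), ‖g (circleMap 0 r t)‖ ^ lam) ^ (1 / lam)

/-- KR-JEN: the means increase with `λ` -/
def S_JEN : Prop :=
  ∀ (g : ℂ → ℂ) (a b r : ℝ), ContinuousOn g (ball 0 1) → 0 < a → a ≤ b → r ∈ Ioo (0 : ℝ) 1 →
    II a r g ≤ II b r g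

/-- KR-KOE: the Koebe function -/
def S_KOE : Prop :=
  DifferentiableOn ℂ (fun z : ℂ => z / (1 - z) ^ 2) (ball 0 1) ∧
  InjOn (fun z : ℂ => z / (1 - z) ^ 2) (ball 0 1) ∧
  ∀ lam : ℝ, 0 < lam → ∃ c : ℝ, 0 < c ∧ ∀ r ∈ Ioo (0 : ℝ) 1,
    c * (1 - r) ^ (-(3 - 1 / lam)) ≤ II lam r (deriv fun z : ℂ => z / (1 - z) ^ 2)

/-- KR-NRM: the normalisation -/
def S_NRM : Prop :=
  ∀ f : ℂ → ℂ, DifferentiableOn ℂ f (ball 0 1) → InjOn f (ball 0 1) →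
    ∃ (F : ℂ → ℂ) (a : ℂ), Sc F ∧ ∀ z ∈ ball (0 : ℂ) 1, deriv f z = a * deriv F z

end Pool.Agent.H7.KR
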