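import Pool.Agent.H64.SL.POL
import Pool.Agent.H7.KR.Stm

set_option autoImplicit false

/-! # KR-POLG: the Taylor coefficients in `ζ` are polynomials in `1 / G(v)`, `G(v)^N = F(v^N)`.
(The proof is that of helper79 for SL-POL.) -/

namespace Pool.Agent.H7.KR

namespace POLG

open Metric Set Filter Topology
open Pool.Agent.H64.SL (sx Kq)
open Pool.Agent.H64.SL.POL
open Pool.Agent.W5h41.MA (cf cf_hasSum cf_deriv slit)
open Pool.Agent.H64.CX (bt rr TP TN)
open Pool.Agent.H64.CX.AREA (pw_hasSum)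
open Pool.Agent.H7.CY (ej hasSum_cauchy ser_unique fibre)
open Pool.Agent.H7.SZ (Sc Se)

theorem pol' (a q : ℕ) (F : ℂ → ℂ) (K : ℂ × ℂ → ℂ) (ν : ℕ → ℕ → ℂ) (ha : 1 ≤ a) (haq : a ≤ q)
    (S : Sc F) (HK : Kq q F K) (hν : Se (fun p => K p ^ a) ν) (j : ℕ) :
    1 ≤ j → ∃ P : Polynomial ℂ, ∀ v : ℂ, v ≠ 0 → ‖v‖ < 1 →
      v ^ a * Pool.Agent.H7.CY.ej (-(sx a q : ℂ)) ν j (v ^ q) = P.eval ((K (0, v ^ q))⁻¹ / v) := by
  have hq : 0 < q := by omega
  change 1 ≤ j → ∃ P : Polynomial ℂ, ∀ v : ℂ, v ≠ 0 → ‖v‖ < 1 →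
      v ^ a * ej (al a q) ν j (v ^ q) = P.eval ((K (0, v ^ q))⁻¹ / v)
  induction j using Nat.strong_induction_on with
  | _ j ih =>
    intro hj1
    obtain ⟨j, rfl⟩ : ∃ i, j = i + 1 := ⟨j - 1, by omega⟩
    choose! P hP using ih
    refine ⟨Polynomial.C (((j : ℂ) + 1)⁻¹) *
      (Polynomial.X ^ q * (∑ i ∈ Finset.range j, Polynomial.C (cf (i + 1) F *
          (((j - (i + 1) : ℕ) : ℂ) + 1)) * P (j - (i + 1) + 1) +
        Polynomial.C (al a q) * ∑ i ∈ Finset.range j,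
          Polynomial.C (((i : ℂ) + 1) * cf (i + 1) F) * P (j - i)) +
        Polynomial.C (al a q * (((j : ℂ) + 1) * cf (j + 1) F)) * Polynomial.X ^ (q - a)), ?_⟩
    intro v hv0 hv1
    have hz0 : v ^ q ≠ 0 := pow_ne_zero q hv0
    have hz1 : ‖v ^ q‖ < 1 := by
      rw [norm_pow]
      exact pow_lt_one₀ (norm_nonneg _) hv1 hq.ne'
    have hz1b : v ^ q ∈ ball (0 : ℂ) 1 := mem_ball_zero_iff.2 hz1
    have hFz : F (v ^ q) ≠ 0 := by
      intro h
      apply hz0
      exact S.inj hz1b (mem_ball_self one_pos) (by rw [h, S.zero])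
    have hKF : K (0, v ^ q) ^ q * v ^ q = F (v ^ q) := by
      have := HK.pow 0 (mem_ball_self one_pos) (v ^ q) hz1b
      rw [S.zero, sub_zero, sub_zero] at this
      exact this
    have hK0 : K (0, v ^ q) ≠ 0 := by
      intro h
      rw [h, zero_pow hq.ne'] at hKF
      apply hFz
      rw [← hKF]
      simp
    have hj : ((j : ℂ) + 1) ≠ 0 := by exact_mod_cast Nat.succ_ne_zero j
    have hrec := recur' hq S HK hν hz0 hz1 j
    set u : ℂ := (K (0, v ^ q))⁻¹ / v with hu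
    rw [Polynomial.eval_mul, Polynomial.eval_C, Polynomial.eval_add, Polynomial.eval_mul,
      Polynomial.eval_add, Polynomial.eval_mul, Polynomial.eval_mul, Polynomial.eval_C,
      Polynomial.eval_C, Polynomial.eval_pow, Polynomial.eval_X, Polynomial.eval_pow,
      Polynomial.eval_X, Polynomial.eval_finsetSum, Polynomial.eval_finsetSum]
    have h3 : ∑ i ∈ Finset.range j, Polynomial.eval u (Polynomial.C (cf (i + 1) F *
          (((j - (i + 1) : ℕ) : ℂ) + 1)) * P (j - (i + 1) + 1)) =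
        v ^ a * ∑ i ∈ Finset.range j, cf (i + 1) F *
        ((((j - (i + 1) : ℕ) : ℂ) + 1) * ej (al a q) ν (j - (i + 1) + 1) (v ^ q)) := by
      rw [Finset.mul_sum]
      apply Finset.sum_congr rfl
      intro i hi
      rw [Finset.mem_range] at hi
      rw [Polynomial.eval_mul, Polynomial.eval_C,
        ← hP (j - (i + 1) + 1) (by omega) (by omega) v hv0 hv1]
      ring
    have h4 : ∑ i ∈ Finset.range j, Polynomial.eval u
          (Polynomial.C (((i : ℂ) + 1) * cf (i + 1) F) * P (j - i)) =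
        v ^ a * ∑ i ∈ Finset.range j, (((i : ℂ) + 1) * cf (i + 1) F) *
          ej (al a q) ν (j - i) (v ^ q) := by
      rw [Finset.mul_sum]
      apply Finset.sum_congr rfl
      intro i hi
      rw [Finset.mem_range] at hi
      rw [Polynomial.eval_mul, Polynomial.eval_C,
        ← hP (j - i) (by omega) (by omega) v hv0 hv1]
      ring
    rw [h3, h4]
    have huv : u * (v * K (0, v ^ q)) = 1 := by
      rw [hu]
      field_simp
    have hu2 : u ^ q * F (v ^ q) = 1 := by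
      rw [← hKF, ← mul_pow, mul_comm (K (0, v ^ q)) v, ← mul_pow, huv, one_pow]
    have huK : u ^ q * (v ^ a * K (0, v ^ q) ^ a) = u ^ (q - a) := by
      rw [← Nat.sub_add_cancel haq, pow_add, Nat.add_sub_cancel, mul_assoc, ← mul_pow, ← mul_pow,
        Nat.sub_add_cancel haq, huv, one_pow, mul_one]
    have hmain : ((j : ℂ) + 1) * (v ^ a * ej (al a q) ν (j + 1) (v ^ q)) =
        u ^ q * v ^ a * (F (v ^ q) * (((j : ℂ) + 1) * ej (al a q) ν (j + 1) (v ^ q))) := by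
      linear_combination (-((j : ℂ) + 1) * (v ^ a * ej (al a q) ν (j + 1) (v ^ q))) * hu2
    rw [eq_comm, inv_mul_eq_iff_eq_mul₀ hj, hmain, hrec]
    linear_combination (-(al a q * (((j : ℂ) + 1) * cf (j + 1) F))) * huK



end POLG

open Metric Set in
/-- **KR-POLG.** -/
theorem polg : S_POLG := by
  intro F Λ ν p N hF hΛ hp hpN hν j hj
  have hN : 0 < N := by omega
  have hNc : (N : ℂ) ≠ 0 := by exact_mod_cast hN.ne'
  have hK : Pool.Agent.H64.SL.Kq N F (fun x => Complex.exp (Λ x / N)) := by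
    refine ⟨?_, ?_, ?_, ?_, ?_⟩
    · refine ((hΛ.diff.const_mul ((N : ℂ)⁻¹)).cexp).congr fun x _ => ?_
      rw [div_eq_inv_mul]
    · intro ζ hζ z hz
      show Complex.exp (Λ (ζ, z) / N) = Complex.exp (Λ (z, ζ) / N)
      rw [hΛ.symm ζ hζ z hz]
    · intro ζ hζ z hz
      show Complex.exp (Λ (ζ, z) / N) ^ N * (z - ζ) = _
      rw [← Complex.exp_nat_mul, mul_div_cancel₀ _ hNc]
      exact hΛ.exp ζ hζ z hz
    · intro ζ hζ
      show Complex.exp (Λ (ζ, ζ) / N) ^ N = _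
      rw [← Complex.exp_nat_mul, mul_div_cancel₀ _ hNc]
      exact hΛ.diag ζ hζ
    · show Complex.exp (Λ (0, 0) / N) = 1
      rw [hΛ.zero, zero_div, Complex.exp_zero]
  have hSe : Pool.Agent.H7.SZ.Se (fun x => Complex.exp (Λ x / N) ^ p) ν := by
    refine ⟨hν.1, fun ζ hζ z hz => ?_⟩
    have h1 := hν.2 ζ hζ z hz
    have h2 : Complex.exp (((((p : ℝ) / N : ℝ)) : ℂ) * Λ (ζ, z)) = Complex.exp (Λ (ζ, z) / N) ^ p := by
      rw [← Complex.exp_nat_mul]
      congr 1
      push_cast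
      field_simp
    rw [h2] at h1
    exact h1
  obtain ⟨P, hP⟩ := POLG.pol' p N F _ ν hp hpN hF hK hSe j hj
  refine ⟨P, fun v hv0 hv1 => ?_⟩
  have h3 := hP v hv0 hv1
  unfold Pool.Agent.H64.SL.sx at h3
  rw [h3]
  congr 1
  rw [← Complex.exp_neg]

end Pool.Agent.H7.KR
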